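import Mathlib

/-!
# Numbers of fixed points from weighted numbers of points for cyclic groups
-/

set_option autoImplicit false

open scoped BigOperators Classical

noncomputable section

namespace Pool.Agent.V8H56.IN

open ArithmeticFunction

theorem sum_cyc {R : Type} [Group R] [Fintype R] [IsCyclic R] (U : ℕ → ℚ) :
    ∑ w : R, U (orderOf w) = ∑ d ∈ (Fintype.card R).divisors, (d.totient : ℚ) * U d := by
  rw [← Finset.sum_fiberwise_of_maps_to (s := Finset.univ) (t := (Fintype.card R).divisors)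
    (g := fun w : R => orderOf w) (fun w _ => Nat.mem_divisors.mpr
      ⟨orderOf_dvd_card, Fintype.card_ne_zero⟩)]
  refine Finset.sum_congr rfl fun d hd => ?_
  rw [Finset.sum_congr rfl (g := fun _ => U d) (fun w hw => by
    rw [(Finset.mem_filter.mp hw).2]), Finset.sum_const, nsmul_eq_mul,
    IsCyclic.card_orderOf_eq_totient (Nat.mem_divisors.mp hd).1]

theorem mob (H : ℕ → ℚ) : ∃ U : ℕ → ℚ,
    (∀ o > 0, ∑ d ∈ o.divisors, (d.totient : ℚ) * U d = H o) ∧
    ∀ n > 0, (n.totient : ℚ) * U n =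
      ∑ x ∈ n.divisorsAntidiagonal, ((moebius x.1 : ℤ) : ℚ) * H x.2 := by
  have h1 : ∀ n > 0, (n.totient : ℚ) *
      ((∑ x ∈ n.divisorsAntidiagonal, ((moebius x.1 : ℤ) : ℚ) * H x.2) / n.totient) =
      ∑ x ∈ n.divisorsAntidiagonal, ((moebius x.1 : ℤ) : ℚ) * H x.2 := by
    intro n hn
    have h2 : (n.totient : ℚ) ≠ 0 := by
      exact_mod_cast (Nat.totient_pos.mpr hn).ne'
    rw [mul_div_cancel₀ _ h2]
  refine ⟨fun n => (∑ x ∈ n.divisorsAntidiagonal, ((moebius x.1 : ℤ) : ℚ) * H x.2) / n.totient,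
    ?_, h1⟩
  exact (sum_eq_iff_sum_mul_moebius_eq (f := fun d => (d.totient : ℚ) *
    ((∑ x ∈ d.divisorsAntidiagonal, ((moebius x.1 : ℤ) : ℚ) * H x.2) / d.totient)) (g := H)).mpr
      fun n hn => (h1 n hn).symm

theorem sum_sq (n : ℕ) (hn : 0 < n) : ∑ a ∈ Finset.Icc 2 n, (1 : ℚ) / (a : ℚ) ^ 2 ≤
    1 - 1 / n := by
  induction n, hn using Nat.le_induction with
  | base => simp
  | succ n hn ih =>
    have h0 : (0 : ℚ) < n := by exact_mod_cast hn
    rw [Finset.sum_Icc_succ_top (by omega)]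
    have h1 : (1 : ℚ) / ((n + 1 : ℕ) : ℚ) ^ 2 ≤ 1 / n - 1 / ((n + 1 : ℕ) : ℚ) := by
      push_cast
      rw [div_sub_div _ _ h0.ne' (by positivity), div_le_div_iff₀ (by positivity) (by positivity)]
      nlinarith
    linarith

theorem sum_anti {n : ℕ} (hn : 0 < n) :
    ∑ x ∈ n.divisorsAntidiagonal.erase (1, n), (x.2 : ℚ) ^ 2 < (n : ℚ) ^ 2 := by
  have h0 : (0 : ℚ) < n := by exact_mod_cast hn
  have h1 : ∑ x ∈ n.divisorsAntidiagonal.erase (1, n), (x.2 : ℚ) ^ 2 ≤
      ∑ a ∈ Finset.Icc 2 n, (n : ℚ) ^ 2 * ((1 : ℚ) / (a : ℚ) ^ 2) := by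
    have h2 : ∑ x ∈ n.divisorsAntidiagonal.erase (1, n), (x.2 : ℚ) ^ 2 =
        ∑ x ∈ n.divisorsAntidiagonal.erase (1, n), (n : ℚ) ^ 2 * ((1 : ℚ) / (x.1 : ℚ) ^ 2) := by
      refine Finset.sum_congr rfl fun x hx => ?_
      have h3 := (Nat.mem_divisorsAntidiagonal.mp (Finset.mem_erase.mp hx).2).1
      have h4 : (x.1 : ℚ) ≠ 0 := by
        intro h
        have h5 : x.1 = 0 := by exact_mod_cast h
        rw [h5, zero_mul] at h3
        omega
      rw [← h3]
      push_cast
      field_simp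
    rw [h2, ← Finset.sum_image (f := fun a : ℕ => (n : ℚ) ^ 2 * ((1 : ℚ) / (a : ℚ) ^ 2))
      (g := fun x : ℕ × ℕ => x.1)]
    · refine Finset.sum_le_sum_of_subset_of_nonneg ?_ fun i _ _ => by positivity
      intro a ha
      obtain ⟨x, hx, rfl⟩ := Finset.mem_image.mp ha
      obtain ⟨hx1, hx2⟩ := Finset.mem_erase.mp hx
      have h3 := (Nat.mem_divisorsAntidiagonal.mp hx2).1
      rw [Finset.mem_Icc]
      have h4 : x.1 ≠ 0 := by
        intro h5
        rw [h5, zero_mul] at h3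
        omega
      have h6 : x.1 ≠ 1 := by
        intro h5
        apply hx1
        rw [h5, one_mul] at h3
        exact Prod.ext h5 h3
      exact ⟨by omega, Nat.le_of_dvd hn ⟨x.2, h3.symm⟩⟩
    · intro x hx y hy hxy
      have hx3 := (Nat.mem_divisorsAntidiagonal.mp (Finset.mem_erase.mp hx).2).1
      have hy3 := (Nat.mem_divisorsAntidiagonal.mp (Finset.mem_erase.mp hy).2).1
      have hxy' : x.1 = y.1 := hxy
      refine Prod.ext hxy' ?_
      have h4 : 0 < x.1 := by
        rcases Nat.eq_zero_or_pos x.1 with h | h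
        · rw [h, zero_mul] at hx3
          omega
        · exact h
      rw [← hxy'] at hy3
      exact Nat.eq_of_mul_eq_mul_left h4 (hx3.trans hy3.symm)
  rw [← Finset.mul_sum] at h1
  have h2 := sum_sq n hn
  have h3 : (0 : ℚ) < (n : ℚ) ^ 2 := by positivity
  have h4 : (0 : ℚ) < 1 / n := by positivity
  have h5 : (n : ℚ) ^ 2 * ∑ a ∈ Finset.Icc 2 n, (1 : ℚ) / (a : ℚ) ^ 2 ≤ (n : ℚ) ^ 2 * (1 - 1 / n) :=
    mul_le_mul_of_nonneg_left h2 h3.le
  have h6 : (n : ℚ) ^ 2 * (1 - 1 / n) < (n : ℚ) ^ 2 := by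
    have : (n : ℚ) ^ 2 * (1 - 1 / n) = (n : ℚ) ^ 2 - (n : ℚ) ^ 2 * (1 / n) := by ring
    rw [this]
    have : 0 < (n : ℚ) ^ 2 * (1 / n) := mul_pos h3 h4
    linarith
  linarith

/-- a function on `ℤ/p` killed by a twisted Möbius sum is zero -/
theorem ker_zero {p n : ℕ} [hp : Fact p.Prime] (hn : 0 < n)
    (D : ZMod p → ℚ)
    (h : ∀ k : ZMod p, ∑ x ∈ n.divisorsAntidiagonal, ((moebius x.1 : ℤ) : ℚ) *
      ((x.2 : ℚ) ^ 2 * D (((x.1 : ZMod p) ^ 2)⁻¹ * k)) = 0) : ∀ k, D k = 0 := by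
  obtain ⟨k₀, hk₀⟩ := Finite.exists_max fun k => |D k|
  have h1 := h k₀
  have hmem : ((1, n) : ℕ × ℕ) ∈ n.divisorsAntidiagonal :=
    Nat.mem_divisorsAntidiagonal.mpr ⟨one_mul n, hn.ne'⟩
  rw [← Finset.add_sum_erase _ _ hmem] at h1
  have h2 : ((moebius 1 : ℤ) : ℚ) * (((n : ℕ) : ℚ) ^ 2 * D ((((1 : ℕ) : ZMod p) ^ 2)⁻¹ * k₀)) =
      (n : ℚ) ^ 2 * D k₀ := by
    simp
  rw [h2] at h1
  have h3 : |(n : ℚ) ^ 2 * D k₀| ≤
      (∑ x ∈ n.divisorsAntidiagonal.erase (1, n), (x.2 : ℚ) ^ 2) * |D k₀| := by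
    rw [eq_neg_of_add_eq_zero_left h1, abs_neg, Finset.sum_mul]
    refine (Finset.abs_sum_le_sum_abs _ _).trans (Finset.sum_le_sum fun x _ => ?_)
    rw [abs_mul, abs_mul, abs_of_nonneg (by positivity : (0 : ℚ) ≤ (x.2 : ℚ) ^ 2)]
    have h4 : |((moebius x.1 : ℤ) : ℚ)| ≤ 1 := by
      have := abs_moebius_le_one (n := x.1)
      exact_mod_cast this
    calc |((moebius x.1 : ℤ) : ℚ)| * ((x.2 : ℚ) ^ 2 * |D (((x.1 : ZMod p) ^ 2)⁻¹ * k₀)|)
        ≤ 1 * ((x.2 : ℚ) ^ 2 * |D k₀|) := by
          refine mul_le_mul h4 (mul_le_mul_of_nonneg_left (hk₀ _) (by positivity))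
            (by positivity) zero_le_one
      _ = (x.2 : ℚ) ^ 2 * |D k₀| := one_mul _
  rw [abs_mul, abs_of_nonneg (by positivity : (0 : ℚ) ≤ (n : ℚ) ^ 2)] at h3
  have h5 := sum_anti hn
  have h6 : |D k₀| = 0 := by
    by_contra hne
    have h7 : 0 < |D k₀| := lt_of_le_of_ne (abs_nonneg _) (Ne.symm hne)
    have h8 := mul_lt_mul_of_pos_right h5 h7
    linarith
  intro k
  have h7 := hk₀ k
  rw [h6] at h7
  exact abs_eq_zero.mp (le_antisymm h7 (abs_nonneg _))

section count

variable {P : Type} [Group P] [Fintype P] [IsCyclic P] {p : ℕ} [hp : Fact p.Prime]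

/-- number of points fixed by `z` with class `j` -/
def fx {X : Type} [Fintype X] (s : X → Subgroup P) (c : X → ZMod p) (z : P) (j : ZMod p) : ℚ :=
  ∑ x : X, if z ∈ s x ∧ c x = j then 1 else 0

/-- the weight -/
def wt (n : ℕ) (k : ZMod p) (j : ZMod p) (d : ℕ) : ℚ :=
  if ((n : ZMod p) * (d : ZMod p)⁻¹) ^ 2 * j = k then (d : ℚ) ^ 2 else 0

theorem expand {X : Type} [Fintype X] (s : X → Subgroup P) (c : X → ZMod p) (Q : Subgroup P)
    (H U : ZMod p → ℕ → ℚ) (hU : ∀ j, ∀ o > 0, ∑ d ∈ o.divisors, (d.totient : ℚ) * U j d = H j o) :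
    ∑ x : X, H (c x) (Nat.card (s x ⊓ Q : Subgroup P)) =
      ∑ w : Q, ∑ j : ZMod p, U j (orderOf (w : P)) * fx s c (w : P) j := by
  have h1 : ∀ x : X, H (c x) (Nat.card (s x ⊓ Q : Subgroup P)) =
      ∑ w : Q, if (w : P) ∈ s x then U (c x) (orderOf (w : P)) else 0 := by
    intro x
    rw [← hU (c x) _ Nat.card_pos, Nat.card_eq_fintype_card, ← sum_cyc, ← Finset.sum_filter]
    refine Finset.sum_bij (fun w _ => (⟨w.1, w.2.2⟩ : Q)) (fun w _ => ?_) (fun w _ w' _ h => ?_)
      (fun w hw => ?_) (fun w _ => ?_)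
    · rw [Finset.mem_filter]
      exact ⟨Finset.mem_univ _, w.2.1⟩
    · exact Subtype.ext (congrArg (fun q : Q => (q : P)) h)
    · exact ⟨⟨w.1, (Finset.mem_filter.mp hw).2, w.2⟩, Finset.mem_univ _, rfl⟩
    · exact congrArg (U (c x)) (Subgroup.orderOf_coe w).symm
  rw [Finset.sum_congr rfl fun x _ => h1 x, Finset.sum_comm]
  refine Finset.sum_congr rfl fun w _ => ?_
  unfold fx
  rw [Finset.sum_congr rfl (g := fun j => ∑ x : X, U j (orderOf (w : P)) *
    if (w : P) ∈ s x ∧ c x = j then (1 : ℚ) else 0) fun j _ => Finset.mul_sum _ _ _,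
    Finset.sum_comm]
  refine Finset.sum_congr rfl fun x _ => ?_
  rw [Finset.sum_eq_single (c x)]
  · by_cases h : (w : P) ∈ s x
    · simp [h]
    · simp [h]
  · intro j _ hj
    rw [if_neg (fun h => hj h.2.symm), mul_zero]
  · exact fun h => absurd (Finset.mem_univ _) h

/-- **Numbers of fixed points from weighted numbers.** -/
theorem fx_eq (hpP : ¬ p ∣ Nat.card P) {X Y : Type} [Fintype X] [Fintype Y]
    (s : X → Subgroup P) (t : Y → Subgroup P) (c : X → ZMod p) (d : Y → ZMod p)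
    (h : ∀ (Q : Subgroup P) (k : ZMod p),
      ∑ x : X, wt (Nat.card Q) k (c x) (Nat.card (s x ⊓ Q : Subgroup P)) =
      ∑ y : Y, wt (Nat.card Q) k (d y) (Nat.card (t y ⊓ Q : Subgroup P))) :
    ∀ (n : ℕ) (z : P), orderOf z = n → ∀ j, fx s c z j = fx t d z j := by
  intro n
  induction n using Nat.strong_induction_on with
  | _ n ih =>
    intro z hz
    have hn : 0 < n := by
      rw [← hz]
      exact orderOf_pos z
    have hQ : Nat.card (Subgroup.zpowers z) = n := by rw [Nat.card_zpowers, hz]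
    have hpn : ∀ m : ℕ, m ∣ n → (m : ZMod p) ≠ 0 := by
      intro m hm h0
      apply hpP
      rw [ZMod.natCast_eq_zero_iff] at h0
      refine h0.trans (hm.trans ?_)
      rw [← hz]
      exact orderOf_dvd_natCard z
    have key : ∀ k : ZMod p, ∑ x ∈ n.divisorsAntidiagonal, ((moebius x.1 : ℤ) : ℚ) *
        ((x.2 : ℚ) ^ 2 * (fun j => fx s c z j - fx t d z j)
          (((x.1 : ZMod p) ^ 2)⁻¹ * k)) = 0 := by
      intro k
      choose U hU1 hU2 using fun j : ZMod p => mob (wt n k j)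
      have h1 := h (Subgroup.zpowers z) k
      rw [hQ, expand s c _ (wt n k) U hU1, expand t d _ (wt n k) U hU1, ← sub_eq_zero,
        ← Finset.sum_sub_distrib] at h1
      have h2 : ∀ w : Subgroup.zpowers z,
          (∑ j : ZMod p, U j (orderOf (w : P)) * fx s c (w : P) j -
            ∑ j : ZMod p, U j (orderOf (w : P)) * fx t d (w : P) j) =
          if orderOf (w : P) = n then ∑ j : ZMod p, U j n * (fx s c z j - fx t d z j)
          else 0 := by
        intro w
        rw [← Finset.sum_sub_distrib]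
        split_ifs with hw
        · have hzw : Subgroup.zpowers (w : P) = Subgroup.zpowers z := by
            apply Subgroup.eq_of_le_of_card_ge
            · rw [Subgroup.zpowers_le]
              exact w.2
            · rw [Nat.card_zpowers, Nat.card_zpowers, hw, hz]
          have hfx : ∀ {Z : Type} [Fintype Z] (s : Z → Subgroup P) (c : Z → ZMod p) (j : ZMod p),
              fx s c (w : P) j = fx s c z j := by
            intro Z _ s c j
            unfold fx
            refine Finset.sum_congr rfl fun x _ => ?_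
            have h3 : (w : P) ∈ s x ↔ z ∈ s x := by
              rw [← Subgroup.zpowers_le, hzw, Subgroup.zpowers_le]
            rw [h3]
          refine Finset.sum_congr rfl fun j _ => ?_
          rw [hw, hfx, hfx, mul_sub]
        · refine Finset.sum_eq_zero fun j _ => ?_
          have hle : orderOf (w : P) ≤ n := by
            have h3 : orderOf (w : P) ∣ n := by
              rw [← hQ, Subgroup.orderOf_coe]
              exact orderOf_dvd_natCard w
            exact Nat.le_of_dvd hn h3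
          rw [ih (orderOf (w : P)) (lt_of_le_of_ne hle hw) w rfl j, sub_self]
      rw [Finset.sum_congr rfl fun w _ => h2 w, ← Finset.sum_filter, Finset.sum_const,
        nsmul_eq_mul] at h1
      have h3 : (Finset.univ.filter fun w : Subgroup.zpowers z => orderOf (w : P) = n).card =
          n.totient := by
        have h4 := IsCyclic.card_orderOf_eq_totient (α := Subgroup.zpowers z) (d := n) (by
          rw [← Nat.card_eq_fintype_card, hQ])
        rw [← h4]
        congr 1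
        ext w
        simp only [Finset.mem_filter, Finset.mem_univ, true_and]
        rw [Subgroup.orderOf_coe]
      rw [h3, Finset.mul_sum] at h1
      rw [← h1]
      have h4 : ∀ j : ZMod p, (n.totient : ℚ) * (U j n * (fx s c z j - fx t d z j)) =
          ∑ x ∈ n.divisorsAntidiagonal, ((moebius x.1 : ℤ) : ℚ) * wt n k j x.2 *
            (fx s c z j - fx t d z j) := by
        intro j
        rw [← mul_assoc, hU2 j n hn, Finset.sum_mul]
      rw [Finset.sum_congr rfl fun j _ => h4 j, Finset.sum_comm]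
      refine Finset.sum_congr rfl fun x hx => ?_
      have hx1 := (Nat.mem_divisorsAntidiagonal.mp hx).1
      have ha := hpn x.1 ⟨x.2, hx1.symm⟩
      have hb := hpn x.2 ⟨x.1, by rw [mul_comm]; exact hx1.symm⟩
      have hab : (n : ZMod p) * (x.2 : ZMod p)⁻¹ = (x.1 : ZMod p) := by
        rw [← hx1]
        push_cast
        rw [mul_assoc, mul_inv_cancel₀ hb, mul_one]
      rw [Finset.sum_eq_single (((x.1 : ZMod p) ^ 2)⁻¹ * k)]
      · unfold wt
        rw [hab, if_pos (by rw [mul_inv_cancel_left₀ (pow_ne_zero 2 ha)])]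
        ring
      · intro j _ hj
        unfold wt
        rw [hab, if_neg, mul_zero, zero_mul]
        intro h5
        apply hj
        rw [← h5, inv_mul_cancel_left₀ (pow_ne_zero 2 ha)]
      · exact fun h => absurd (Finset.mem_univ _) h
    intro j
    have h5 := ker_zero hn (fun j => fx s c z j - fx t d z j) key j
    exact sub_eq_zero.mp h5

end count

end Pool.Agent.V8H56.IN
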