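import Pool.Agent.V8H56.IN.Arith
import Pool.Agent.V8H56.MA.Fin
import Pool.Agent.V8H56.EQ.Cyc

/-!
# Degrees modulo `p` and semidirect products with cyclic groups
-/

set_option autoImplicit false
set_option linter.unusedSectionVars false

open scoped BigOperators Classical

noncomputable section

namespace Pool.Agent.V8H56.IN

open Pool.Agent.Q90.WR Pool.Agent.H254R3.IN Pool.Agent.Q259.BW Pool.Agent.Q288.MB
open Pool.Agent.Helper884 Pool.Agent.N19.RB Pool.Agent.V8H56.AM Pool.Agent.V8H56.EQ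
open Pool.Agent.V8H56.MA (XP_aut NumN)
open Pool.Agent.N84.MG (XP NS)
open Pool.Agent.V8H56.BF (resA coe_resA inv_iff normP)

section cl

variable {G : Type} [Group G] {p : ℕ}

/-- the square of the degree modulo `p` -/
def cl (p : ℕ) {G : Type} [Group G] (χ : G → ℂ) : ZMod p :=
  if h : ∃ n : ℕ, (n : ℂ) = χ 1 then (h.choose : ZMod p) ^ 2 else 0

theorem cl_eq {χ : G → ℂ} {n : ℕ} (h : (n : ℂ) = χ 1) : cl p χ = (n : ZMod p) ^ 2 := by
  unfold cl
  have h1 : ∃ n : ℕ, (n : ℂ) = χ 1 := ⟨n, h⟩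
  rw [dif_pos h1]
  have h2 : h1.choose = n := by
    have h3 := h1.choose_spec.trans h.symm
    exact_mod_cast h3
  rw [h2]

theorem cl_congr {H : Type} [Group H] {χ : G → ℂ} {ψ : H → ℂ} (h : χ 1 = ψ 1) :
    cl p χ = cl p ψ := by
  unfold cl
  rw [h]

/-- number of characters of degree prime to `p` with given square of the degree modulo `p` -/
def NC (p : ℕ) (G : Type) [Group G] (k : ZMod p) : ℕ :=
  Nat.card {χ : G → ℂ // χ ∈ XP p G ∧ cl p χ = k}

theorem XP_iso [Fact p.Prime] {H : Type} [Group H] (e : G ≃* H) {χ : H → ℂ} (h : χ ∈ XP p H) :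
    (fun g => χ (e g)) ∈ XP p G :=
  ⟨irr_comp e h.1, (Pool.Agent.V8H56.MA.deg_inf e.toMonoidHom χ).mpr h.2⟩

theorem NC_iso [Fact p.Prime] {H : Type} [Group H] (e : G ≃* H) (k : ZMod p) : NC p G k = NC p H k := by
  refine Nat.card_congr
    { toFun := fun χ => ⟨fun h => χ.1 (e.symm h), XP_iso e.symm χ.2.1, ?_⟩
      invFun := fun χ => ⟨fun g => χ.1 (e g), XP_iso e χ.2.1, ?_⟩
      left_inv := fun χ => Subtype.ext (funext fun g => congrArg χ.1 (e.symm_apply_apply g))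
      right_inv := fun χ => Subtype.ext (funext fun g => congrArg χ.1 (e.apply_symm_apply g)) }
  · exact (cl_congr (by rw [map_one])).trans χ.2.2
  · exact (cl_congr (by rw [map_one])).trans χ.2.2

end cl

section sd

variable {N P : Type} [Group N] [Group P] [Fintype N] [Fintype P] {φ : P →* MulAut N} {p : ℕ}
  [hp : Fact p.Prime]

theorem above {θ : N → ℂ} (hθ : IsIrr θ) [IsCyclic P] (hpP : ¬ p ∣ Nat.card P)
    {χ : N ⋊[φ] P → ℂ} (hχ : IsIrr χ) (hne : IC.B (indP φ θ) χ ≠ 0) :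
    (χ ∈ XP p (N ⋊[φ] P) ↔ θ ∈ XP p N) ∧
      cl p χ = ((Nat.card P : ZMod p) * (Nat.card (St φ θ) : ZMod p)⁻¹) ^ 2 * cl p θ := by
  obtain ⟨d, hd0, hd'⟩ := hθ.deg
  have hd : θ 1 = (d : ℂ) := hd'.symm
  have h1 := deg_dvd hθ inferInstance hχ hne
  have h2 := card_orb (φ := φ) θ
  have h3 : χ 1 = (((orb φ θ).card * d : ℕ) : ℂ) := by
    rw [h1, hd]
    push_cast
    ring
  have hS : (Nat.card (St φ θ) : ZMod p) ≠ 0 := by
    intro h0
    rw [ZMod.natCast_eq_zero_iff] at h0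
    exact hpP (h0.trans ⟨_, by rw [mul_comm]; exact h2.symm⟩)
  have hO : ¬ p ∣ (orb φ θ).card := fun h0 => hpP (h0.trans ⟨_, h2.symm⟩)
  constructor
  · constructor
    · rintro ⟨-, m, hm, hpm⟩
      refine ⟨hθ, d, hd.symm, fun h0 => hpm ?_⟩
      have h4 : m = (orb φ θ).card * d := by exact_mod_cast hm.trans h3
      rw [h4]
      exact h0.mul_left _
    · rintro ⟨-, m, hm, hpm⟩
      have h4 : m = d := by exact_mod_cast hm.trans hd
      rw [h4] at hpm
      refine ⟨hχ, _, h3.symm, fun h0 => ?_⟩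
      rcases (Nat.Prime.dvd_mul hp.out).mp h0 with h0 | h0
      · exact hO h0
      · exact hpm h0
  · rw [cl_eq h3.symm, cl_eq hd.symm]
    have h4 : (Nat.card P : ZMod p) * (Nat.card (St φ θ) : ZMod p)⁻¹ =
        ((orb φ θ).card : ZMod p) := by
      rw [← h2]
      push_cast
      rw [mul_assoc, mul_inv_cancel₀ hS, mul_one]
    rw [h4]
    push_cast
    ring

/-- **Count.** -/
theorem cnt_sd [IsCyclic P] (hpP : ¬ p ∣ Nat.card P) (k : ZMod p) :
    (Nat.card P : ℚ) * (NC p (N ⋊[φ] P) k : ℚ) =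
      ∑ θ ∈ (IC.Irr N).filter (· ∈ XP p N), wt (Nat.card P) k (cl p θ) (Nat.card (St φ θ)) := by
  set SA := (IC.Irr N).filter (· ∈ XP p N) with hSA
  set SC := (IC.Irr (N ⋊[φ] P)).filter (fun χ => χ ∈ XP p (N ⋊[φ] P) ∧ cl p χ = k) with hSC
  have hA : ∀ θ ∈ XP p N, IsIrr θ := fun θ h => h.1
  have hs : PSt φ (XP p N) := fun θ hθ t => XP_aut (φ t) hθ
  have c2 : NC p (N ⋊[φ] P) k = SC.card := by
    refine Nat.subtype_card _ fun χ => ?_
    rw [hSC, Finset.mem_filter, IC.mem_Irr]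
    exact ⟨fun h => h.2, fun h => ⟨h.1.1, h⟩⟩
  have hcov : ∀ χ ∈ SC, χ ∈ Cov φ (XP p N) := by
    intro χ hχ
    obtain ⟨h1, h2, -⟩ := Finset.mem_filter.mp hχ
    obtain ⟨θ, h3, h4⟩ := exists_below h2.1
    exact ⟨h2.1, θ, (above h3 hpP h2.1 h4).1.mp h2, h4⟩
  have e1 : Nat.card P * SC.card =
      ∑ χ ∈ SC, ∑ θ ∈ SA.filter (fun θ => χ ∈ Abv φ θ), Nat.card (St φ θ) := by
    rw [Finset.sum_congr rfl fun χ hχ => sum_below hA hs (hcov χ hχ),
      Finset.sum_const, smul_eq_mul, mul_comm]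
  have e2 : ∑ χ ∈ SC, ∑ θ ∈ SA.filter (fun θ => χ ∈ Abv φ θ), Nat.card (St φ θ) =
      ∑ θ ∈ SA, if ((Nat.card P : ZMod p) * (Nat.card (St φ θ) : ZMod p)⁻¹) ^ 2 * cl p θ = k
        then (Nat.card (St φ θ)) ^ 2 else 0 := by
    have h1 : ∀ χ ∈ SC, ∑ θ ∈ SA.filter (fun θ => χ ∈ Abv φ θ), Nat.card (St φ θ) =
        ∑ θ ∈ SA, if χ ∈ Abv φ θ then Nat.card (St φ θ) else 0 := fun χ _ => Finset.sum_filter _ _
    rw [Finset.sum_congr rfl h1, Finset.sum_comm]
    refine Finset.sum_congr rfl fun θ hθ => ?_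
    have hθA := (Finset.mem_filter.mp hθ).2
    rw [← Finset.sum_filter, Finset.sum_const, smul_eq_mul]
    split_ifs with hk
    · have h2 : SC.filter (fun χ => χ ∈ Abv φ θ) = Abv φ θ := by
        ext χ
        rw [Finset.mem_filter]
        constructor
        · exact fun h => h.2
        · intro h
          obtain ⟨hi, hne⟩ := mem_Abv.mp h
          have h3 := above hθA.1 hpP hi hne
          exact ⟨Finset.mem_filter.mpr ⟨IC.mem_Irr.mpr hi, h3.1.mpr hθA, h3.2.trans hk⟩, h⟩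
      rw [h2, card_Abv hθA.1 inferInstance, sq]
    · have h2 : SC.filter (fun χ => χ ∈ Abv φ θ) = ∅ := by
        rw [Finset.filter_eq_empty_iff]
        intro χ hχ h
        obtain ⟨hi, hne⟩ := mem_Abv.mp h
        exact hk ((above hθA.1 hpP hi hne).2.symm.trans (Finset.mem_filter.mp hχ).2.2)
      rw [h2, Finset.card_empty, zero_mul]
  rw [c2]
  have e3 : ((Nat.card P * SC.card : ℕ) : ℚ) = ((∑ θ ∈ SA,
      if ((Nat.card P : ZMod p) * (Nat.card (St φ θ) : ZMod p)⁻¹) ^ 2 * cl p θ = k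
        then (Nat.card (St φ θ)) ^ 2 else 0 : ℕ) : ℚ) := by
    rw [e1, e2]
  push_cast at e3
  rw [e3]
  refine Finset.sum_congr rfl fun θ _ => ?_
  unfold wt
  split_ifs <;> simp

end sd

section fix

variable {G P : Type} [Group G] [Group P] [Fintype G] [Fintype P] {φ : P →* MulAut G} {p : ℕ}
  [hp : Fact p.Prime]

theorem St_comp (Q : Subgroup P) (θ : G → ℂ) :
    Nat.card (St (φ.comp Q.subtype) θ) = Nat.card (St φ θ ⊓ Q : Subgroup P) := by
  refine Nat.card_congr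
    { toFun := fun t => ⟨t.1.1, t.2, t.1.2⟩
      invFun := fun t => ⟨⟨t.1, t.2.2⟩, t.2.1⟩
      left_inv := fun _ => rfl
      right_inv := fun _ => rfl }

theorem card_fx [Fintype (XP p G)] (z : P) (j : ZMod p) :
    fx (fun θ : XP p G => St φ θ.1) (fun θ : XP p G => cl p θ.1) z j =
      (Nat.card {θ // θ ∈ XP p G ∧ z ∈ St φ θ ∧ cl p θ = j} : ℚ) := by
  unfold fx
  rw [Finset.sum_boole]
  have h1 : Nat.card {θ // θ ∈ XP p G ∧ z ∈ St φ θ ∧ cl p θ = j} =
      Nat.card {x : XP p G // z ∈ St φ x.1 ∧ cl p x.1 = j} := Nat.card_congr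
    { toFun := fun θ => ⟨⟨θ.1, θ.2.1⟩, θ.2.2⟩
      invFun := fun x => ⟨x.1.1, x.1.2, x.2⟩
      left_inv := fun _ => rfl
      right_inv := fun _ => rfl }
  rw [h1, Nat.card_eq_fintype_card, Fintype.card_subtype]

theorem sum_fin [Fintype (XP p G)] (F : (G → ℂ) → ℚ) :
    ∑ θ ∈ (IC.Irr G).filter (· ∈ XP p G), F θ = ∑ x : XP p G, F x.1 := by
  refine Finset.sum_subtype (p := fun θ => θ ∈ XP p G) _ (fun θ => ?_) F
  rw [Finset.mem_filter, IC.mem_Irr]
  exact ⟨fun h => h.2, fun h => ⟨h.1, h⟩⟩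

theorem fix_cnt [IsCyclic P] (hpP : ¬ p ∣ Nat.card P) {G' : Type} [Group G'] [Fintype G']
    {φ' : P →* MulAut G'}
    (H : ∀ (Q : Subgroup P) (k : ZMod p), NC p (G ⋊[φ.comp Q.subtype] Q) k =
      NC p (G' ⋊[φ'.comp Q.subtype] Q) k) (z : P) (j : ZMod p) :
    Nat.card {θ // θ ∈ XP p G ∧ z ∈ St φ θ ∧ cl p θ = j} =
      Nat.card {θ // θ ∈ XP p G' ∧ z ∈ St φ' θ ∧ cl p θ = j} := by
  have i1 : Finite (XP p G) := finite_of_irr fun θ hθ => hθ.1
  have i2 : Finite (XP p G') := finite_of_irr fun θ hθ => hθ.1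
  have := Fintype.ofFinite (XP p G)
  have := Fintype.ofFinite (XP p G')
  have h1 := fx_eq (P := P) hpP (fun θ : XP p G => St φ θ.1) (fun θ : XP p G' => St φ' θ.1)
    (fun θ => cl p θ.1) (fun θ => cl p θ.1) (by
      intro Q k
      have hQ : ¬ p ∣ Nat.card Q := fun h => hpP (h.trans (Subgroup.card_subgroup_dvd_card Q))
      have a1 := cnt_sd (φ := φ.comp Q.subtype) hQ k
      have a2 := cnt_sd (φ := φ'.comp Q.subtype) hQ k
      rw [H Q k, a2, sum_fin, sum_fin] at a1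
      have b1 : ∀ x : XP p G, wt (Nat.card Q) k (cl p x.1) (Nat.card (St φ x.1 ⊓ Q : Subgroup P)) =
          wt (Nat.card Q) k (cl p x.1) (Nat.card (St (φ.comp Q.subtype) x.1)) := fun x => by
        rw [St_comp]
      have b2 : ∀ x : XP p G', wt (Nat.card Q) k (cl p x.1)
          (Nat.card (St φ' x.1 ⊓ Q : Subgroup P)) =
          wt (Nat.card Q) k (cl p x.1) (Nat.card (St (φ'.comp Q.subtype) x.1)) := fun x => by
        rw [St_comp]
      rw [Finset.sum_congr rfl fun x _ => b1 x, Finset.sum_congr rfl fun x _ => b2 x]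
      exact a1.symm) (orderOf z) z rfl j
  rw [card_fx, card_fx] at h1
  exact_mod_cast h1

end fix

end Pool.Agent.V8H56.IN
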