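import Pool.Agent.N84.MG.Main

/-!
# McKay bijections with degrees congruent up to sign: definitions
-/

set_option autoImplicit false

noncomputable section

namespace Pool.Agent.V8H56.IN

open Pool.Agent.N84.MG

/-- There is a bijection from `Irr_{p'}(G)` to `Irr_{p'}(N_G(S))` with degrees congruent up to sign
modulo `p`. -/
def DegBij {p : ℕ} {G : Type} [Group G] (S : Sylow p G) : Prop :=
  ∃ F : XP p G ≃ XP p (NS S), ∀ (χ : XP p G) (m n : ℕ), χ.1 1 = m → (F χ).1 1 = n →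
    (m : ℤ) ≡ n [ZMOD p] ∨ (m : ℤ) ≡ -n [ZMOD p]

/-- Let `f` be an automorphism of `G` with `f(S) = S`. There is a bijection `F` from `Irr_{p'}(G)` to
`Irr_{p'}(N_G(S))` such that
(1) the degrees of `χ` and `F χ` are congruent up to sign modulo `p`;
(2) `F` commutes with `f`: if `θ' = θ ∘ f`, then `F θ' = F θ ∘ f` on `N_G(S)`;
(3) `F` preserves the characters of the centre: `(F θ)(z) / (F θ)(1) = θ(z) / θ(1)` for all `θ` and
all `z` in `Z(G)`. -/
def EqDegBij {p : ℕ} {G : Type} [Group G] (S : Sylow p G) (f : MulAut G) : Prop :=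
  ∃ F : XP p G ≃ XP p (NS S),
    (∀ (χ : XP p G) (m n : ℕ), χ.1 1 = m → (F χ).1 1 = n →
      (m : ℤ) ≡ n [ZMOD p] ∨ (m : ℤ) ≡ -n [ZMOD p]) ∧
    (∀ θ θ' : XP p G, (∀ g, θ'.1 g = θ.1 (f g)) →
      ∀ n n' : NS S, (n' : G) = f n → (F θ').1 n = (F θ).1 n') ∧
    ∀ (θ : XP p G) (z : NS S), (z : G) ∈ Subgroup.center G →
      (F θ).1 z / (F θ).1 1 = θ.1 z / θ.1 1

/-- The group `H` has a normal subgroup isomorphic to `G` with cyclic factor group of order prime to
`p`. -/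
def ExtC (p : ℕ) (G H : Type) [Group G] [Group H] : Prop :=
  ∃ (n : ℕ) (π : H →* Multiplicative (ZMod n)), n ≠ 0 ∧ ¬ p ∣ n ∧ Function.Surjective π ∧
    Nonempty (π.ker ≃* G)

end Pool.Agent.V8H56.IN
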