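import Pool.Agent.V8H56.IN.Fin
import Pool.Agent.V8H56.MA.Nrm
import Pool.Agent.V8H56.MA.Num

/-!
# Direct products with metacyclic groups: one degree class decides
-/

set_option autoImplicit false
set_option linter.unusedSectionVars false

open scoped BigOperators Classical

noncomputable section

namespace Pool.Agent.V8H56.IN

open Pool.Agent.Q90.WR Pool.Agent.H254R3.IN Pool.Agent.Q259.BW Pool.Agent.Q288.MB
open Pool.Agent.Helper884 Pool.Agent.N19.RB Pool.Agent.V8H56.AM Pool.Agent.V8H56.EQ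
open Pool.Agent.V8H56.MA (iso_two act_fo exists_norm hz hz_inj)
open Pool.Agent.N84.MG (XP NS CD aU nu nu_one nu_irr nu_inj exists_fo)
open Pool.Agent.V8H56.BF (resA coe_resA inv_iff normP)

open SemidirectProduct (inl inr)

/-- The group `H` is isomorphic to `F × G` for a metacyclic group `F` of order prime to `p`. -/
def Dir (p : ℕ) (G H : Type) [Group G] [Group H] : Prop :=
  ∃ (F : Type) (_ : Group F) (n : ℕ) (π : F →* Multiplicative (ZMod n)), ¬ p ∣ Nat.card F ∧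
    IsCyclic π.ker ∧ Nonempty (H ≃* F × G)

/-- The number of characters of `G` of degree prime to `p` and congruent to `a` or `-a` modulo `p`. -/
def nDeg (p : ℕ) (G : Type) [Group G] (a : ℕ) : ℕ :=
  Nat.card {χ : G → ℂ // χ ∈ XP p G ∧ ∃ m : ℕ, (m : ℂ) = χ 1 ∧
    ((m : ℤ) ≡ a [ZMOD p] ∨ (m : ℤ) ≡ -a [ZMOD p])}

section cnt

variable {p : ℕ} [hp : Fact p.Prime]

theorem nDeg_eq {G : Type} [Group G] (a : ℕ) : nDeg p G a = NC p G ((a : ZMod p) ^ 2) := by
  refine Nat.card_congr (Equiv.subtypeEquivRight fun χ => and_congr_right fun hχ => ?_)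
  constructor
  · rintro ⟨m, hm, h⟩
    rw [cl_eq hm]
    exact (cong_iff m a).mp h
  · intro h
    obtain ⟨m, hm, -⟩ := hχ.2
    rw [cl_eq hm] at h
    exact ⟨m, hm, (cong_iff m a).mpr h⟩

theorem NC_sum {G : Type} [Group G] [Fintype G] (k : ZMod p) :
    (NC p G k : ℚ) = ∑ τ ∈ (IC.Irr G).filter (· ∈ XP p G), if cl p τ = k then (1 : ℚ) else 0 := by
  rw [Finset.sum_boole]
  congr 1
  refine Nat.subtype_card _ fun χ => ?_
  rw [Finset.mem_filter, Finset.mem_filter, IC.mem_Irr]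
  exact ⟨fun h => ⟨h.1.2, h.2⟩, fun h => ⟨⟨h.1.1, h.1⟩, h.2⟩⟩

end cnt

section W

variable {G P : Type} [Group G] [Group P] [Fintype G] [Fintype P] {p : ℕ} [hp : Fact p.Prime]
  {r : ℕ} [hr : Fact r.Prime] {c : P →* (ZMod r)ˣ}

/-- the group `(C_r × G) ⋊ P` with trivial action on `G` -/
abbrev WD (c : P →* (ZMod r)ˣ) (G : Type) [Group G] : Type :=
  NO Unit (CD r) G ⋊[actG Unit ((aU r).comp c) (1 : P →* MulAut G)] P

theorem fo_one (u : ZMod r) (τ : G → ℂ) :
    tens (fo (nu u) fun _ : Unit => τ) (1 : NO Unit (CD r) G) = τ 1 := by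
  rw [tens_fo]
  have h : nu u (cO (1 : NO Unit (CD r) G)) = 1 := nu_one u
  rw [h, one_mul]
  simp

theorem St_W (hc : Function.Injective c) (u : ZMod r) {τ : G → ℂ} (hτ : IsIrr τ) :
    Nat.card (St (actG Unit ((aU r).comp c) (1 : P →* MulAut G))
      (tens (fo (nu u) fun _ : Unit => τ))) = if u = 0 then Nat.card P else 1 := by
  have key : ∀ t : P, t ∈ St (actG Unit ((aU r).comp c) (1 : P →* MulAut G))
      (tens (fo (nu u) fun _ : Unit => τ)) ↔ (c t : ZMod r) * u = u := by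
    intro t
    rw [mem_St, act_fo]
    constructor
    · intro h
      exact nu_inj (fo_inj (nu_irr _) (fun _ => hτ) (nu_irr _) (fun _ => hτ) h).1
    · intro h
      rw [h]
      rfl
  split_ifs with h
  · have h1 : St (actG Unit ((aU r).comp c) (1 : P →* MulAut G))
        (tens (fo (nu u) fun _ : Unit => τ)) = ⊤ := by
      rw [eq_top_iff]
      intro t _
      rw [key, h, mul_zero]
    rw [h1, Subgroup.card_top]
  · have h1 : St (actG Unit ((aU r).comp c) (1 : P →* MulAut G))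
        (tens (fo (nu u) fun _ : Unit => τ)) = ⊥ := by
      rw [eq_bot_iff]
      intro t ht
      rw [key] at ht
      have h2 : ((c t : ZMod r) - 1) * u = 0 := by rw [sub_mul, one_mul, ht, sub_self]
      have h3 := (mul_eq_zero.mp h2).resolve_right h
      rw [Subgroup.mem_bot]
      apply hc
      rw [map_one]
      exact Units.ext (by rw [Units.val_one]; exact sub_eq_zero.mp h3)
    rw [h1, Subgroup.card_bot]

theorem XP_fo (u : ZMod r) {τ : G → ℂ} (hτ : IsIrr τ) :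
    tens (fo (nu u) fun _ : Unit => τ) ∈ XP p (NO Unit (CD r) G) ↔ τ ∈ XP p G := by
  have h1 := fo_one u τ
  constructor
  · rintro ⟨-, m, hm, hpm⟩
    exact ⟨hτ, m, hm.trans h1, hpm⟩
  · rintro ⟨-, m, hm, hpm⟩
    exact ⟨tens_fo_irr (nu_irr _) fun _ => hτ, m, hm.trans h1.symm, hpm⟩

theorem cnt_W [IsCyclic P] (hc : Function.Injective c) (hP : ¬ p ∣ Nat.card P) (k : ZMod p) :
    (Nat.card P : ℚ) * (NC p (WD c G) k : ℚ) =
      ((r : ℚ) - 1) * NC p G (((Nat.card P : ZMod p) ^ 2)⁻¹ * k) +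
        (Nat.card P : ℚ) ^ 2 * NC p G k := by
  have hn0 : (Nat.card P : ZMod p) ≠ 0 := by
    rw [Ne, ZMod.natCast_eq_zero_iff]
    exact hP
  rw [cnt_sd hP k]
  have e1 : ∑ θ ∈ (IC.Irr (NO Unit (CD r) G)).filter (· ∈ XP p (NO Unit (CD r) G)),
      wt (Nat.card P) k (cl p θ)
        (Nat.card (St (actG Unit ((aU r).comp c) (1 : P →* MulAut G)) θ)) =
      ∑ x ∈ (Finset.univ : Finset (ZMod r)) ×ˢ (IC.Irr G).filter (· ∈ XP p G),
        wt (Nat.card P) k (cl p x.2) (if x.1 = 0 then Nat.card P else 1) := by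
    symm
    refine Finset.sum_bij (fun x _ => tens (fo (nu x.1) fun _ : Unit => x.2)) ?_ ?_ ?_ ?_
    · intro x hx
      have h1 := (Finset.mem_filter.mp (Finset.mem_product.mp hx).2).2
      exact Finset.mem_filter.mpr ⟨IC.mem_Irr.mpr (tens_fo_irr (nu_irr _) fun _ => h1.1),
        (XP_fo x.1 h1.1).mpr h1⟩
    · intro x hx y hy hxy
      have h1 := (Finset.mem_filter.mp (Finset.mem_product.mp hx).2).2
      have h2 := (Finset.mem_filter.mp (Finset.mem_product.mp hy).2).2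
      have h3 := fo_inj (nu_irr _) (fun _ => h1.1) (nu_irr _) (fun _ => h2.1) hxy
      exact Prod.ext (nu_inj h3.1) (congrFun h3.2 ())
    · intro θ hθ
      obtain ⟨h1, h2⟩ := Finset.mem_filter.mp hθ
      obtain ⟨u, τ, hτ, rfl⟩ := exists_fo (IC.mem_Irr.mp h1)
      have h3 : τ = fun _ => τ () := rfl
      refine ⟨(u, τ ()), Finset.mem_product.mpr ⟨Finset.mem_univ _,
        Finset.mem_filter.mpr ⟨IC.mem_Irr.mpr (hτ ()), (XP_fo u (hτ ())).mp h2⟩⟩, rfl⟩
    · intro x hx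
      have h1 := (Finset.mem_filter.mp (Finset.mem_product.mp hx).2).2
      rw [St_W hc x.1 h1.1]
      have h2 : cl p (tens (fo (nu x.1) fun _ : Unit => x.2)) = cl p x.2 :=
        cl_congr (fo_one x.1 x.2)
      rw [h2]
  rw [e1, Finset.sum_product_right, NC_sum, NC_sum, Finset.mul_sum, Finset.mul_sum,
    ← Finset.sum_add_distrib]
  refine Finset.sum_congr rfl fun τ _ => ?_
  rw [← Finset.add_sum_erase _ _ (Finset.mem_univ (0 : ZMod r)), if_pos rfl]
  rw [Finset.sum_congr rfl (g := fun _ => wt (Nat.card P) k (cl p τ) 1) (fun u hu => by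
    rw [if_neg (Finset.mem_erase.mp hu).1]), Finset.sum_const, nsmul_eq_mul,
    Finset.card_erase_of_mem (Finset.mem_univ _), Finset.card_univ, ZMod.card,
    Nat.cast_sub hr.out.one_lt.le, Nat.cast_one]
  have h1 : wt (Nat.card P) k (cl p τ) (Nat.card P) =
      (Nat.card P : ℚ) ^ 2 * if cl p τ = k then (1 : ℚ) else 0 := by
    unfold wt
    rw [mul_inv_cancel₀ hn0, one_pow, one_mul]
    split_ifs <;> simp
  have h2 : wt (Nat.card P) k (cl p τ) 1 =
      if cl p τ = ((Nat.card P : ZMod p) ^ 2)⁻¹ * k then (1 : ℚ) else 0 := by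
    unfold wt
    rw [Nat.cast_one, inv_one, mul_one, Nat.cast_one, one_pow]
    have h3 : (Nat.card P : ZMod p) ^ 2 * cl p τ = k ↔
        cl p τ = ((Nat.card P : ZMod p) ^ 2)⁻¹ * k :=
      ⟨fun h => by rw [← h, inv_mul_cancel_left₀ (pow_ne_zero 2 hn0)],
        fun h => by rw [h, mul_inv_cancel_left₀ (pow_ne_zero 2 hn0)]⟩
    simp only [h3]
  rw [h1, h2]
  ring

/-- the direct product decomposition -/
def WDe (c : P →* (ZMod r)ˣ) : WD c G ≃* (CD r ⋊[(aU r).comp c] P) × G where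
  toFun x := (⟨cO x.left, x.right⟩, gO x.left ())
  invFun y := ⟨mkO y.1.left (fun _ => y.2), y.1.right⟩
  left_inv x := by
    ext1
    · apply ext_O
      · rfl
      · intro i
        rfl
    · rfl
  right_inv y := rfl
  map_mul' x y := rfl

theorem norm_W (hP : ¬ p ∣ Nat.card P) (S : Sylow p G) :
    ∃ T : Sylow p (WD c G), Nonempty (NS T ≃* WD c (NS S)) := by
  have hI : Inv (1 : P →* MulAut G) (S : Subgroup G) := fun t d hd => hd
  obtain ⟨T, hT⟩ := exists_norm (ι := Unit) (α := (aU r).comp c) (φ := (1 : P →* MulAut G)) hP S hI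
  have h1 : resA (1 : P →* MulAut G) hI = 1 := by
    ext t n
    rfl
  rw [h1] at hT
  exact ⟨T, hT⟩

end W

section cyc

variable {p : ℕ} [hp : Fact p.Prime] {G : Type} [Group G] [Finite G]

theorem dir_W {n r : ℕ} [NeZero n] [hr : Fact r.Prime] (hrp : r ≠ p) (hpn : ¬ p ∣ n)
    (c : Multiplicative (ZMod n) →* (ZMod r)ˣ) : Dir p G (WD c G) := by
  refine ⟨_, inferInstance, n, SemidirectProduct.rightHom
    (φ := (aU r).comp c), ?_, ?_, ⟨WDe c⟩⟩
  · rw [card_sd, Nat.card_congr (Multiplicative.toAdd (α := ZMod r)), Nat.card_zmod,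
      Nat.card_congr (Multiplicative.toAdd (α := ZMod n)), Nat.card_zmod]
    intro h
    rcases (Nat.Prime.dvd_mul hp.out).mp h with h | h
    · exact hrp ((Nat.prime_dvd_prime_iff_eq hp.out hr.out).mp h).symm
    · exact hpn h
  · rw [← SemidirectProduct.range_inl_eq_ker_rightHom]
    exact isCyclic_of_surjective (MonoidHom.rangeRestrict _) (MonoidHom.rangeRestrict_surjective _)

/-- primes with a given order -/
theorem exists_c {n : ℕ} [NeZero n] (R : ℕ) : ∃ (r : ℕ) (_ : Fact r.Prime)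
    (c : Multiplicative (ZMod n) →* (ZMod r)ˣ), R < r ∧ Function.Injective c := by
  obtain ⟨r, hr, hR, hm⟩ := Nat.exists_prime_gt_modEq_one (k := n) R (NeZero.ne n)
  have : Fact r.Prime := ⟨hr⟩
  have hd : n ∣ r - 1 := (Nat.modEq_iff_dvd' hr.one_lt.le).mp hm.symm
  obtain ⟨g, hg⟩ := IsCyclic.exists_generator (α := (ZMod r)ˣ)
  have ho : orderOf g = r - 1 := by
    rw [orderOf_eq_card_of_forall_mem_zpowers hg, Nat.card_eq_fintype_card, ZMod.card_units]
  obtain ⟨d, hd'⟩ := hd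
  have hr1 : 0 < r - 1 := Nat.sub_pos_of_lt hr.one_lt
  have hd0 : d ≠ 0 := by
    rintro rfl
    rw [mul_zero] at hd'
    omega
  have h1 : orderOf (g ^ d) = n := by
    rw [orderOf_pow_of_dvd hd0 (by rw [ho, hd']; exact dvd_mul_left d n), ho, hd',
      Nat.mul_div_cancel _ (Nat.pos_of_ne_zero hd0)]
  exact ⟨r, this, hz (g ^ d) (by rw [← h1, pow_orderOf_eq_one]), hR, hz_inj _ _ h1⟩

theorem le_of_asym {x y x' y' n : ℕ} (hn : 0 < n)
    (h : ∀ ε : ℝ, 0 < ε → ∃ E : ℝ, ∀ R : ℕ, ∃ r : ℕ, R < r ∧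
      (((r : ℝ) - 1) * x + (n : ℝ) ^ 2 * x') / n ≤
        (1 + ε) * ((((r : ℝ) - 1) * y + (n : ℝ) ^ 2 * y') / n) + E) : x ≤ y := by
  by_contra hxy
  have hxy' : y + 1 ≤ x := by omega
  have hx : (y : ℝ) + 1 ≤ x := by exact_mod_cast hxy'
  have hy0 : (0 : ℝ) ≤ y := Nat.cast_nonneg y
  have hx0 : (0 : ℝ) ≤ x' := Nat.cast_nonneg x'
  have hn' : (0 : ℝ) < n := by exact_mod_cast hn
  obtain ⟨E, hE⟩ := h (1 / (2 * ((y : ℝ) + 1))) (by positivity)
  set ε : ℝ := 1 / (2 * ((y : ℝ) + 1)) with hε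
  have hey : ε * y ≤ 1 / 2 := by
    rw [hε, div_mul_eq_mul_div, one_mul, div_le_div_iff₀ (by positivity) (by norm_num)]
    linarith
  obtain ⟨R, hR⟩ := exists_nat_gt (2 * ((1 + ε) * ((n : ℝ) ^ 2 * y') + E * n) + 1)
  obtain ⟨r, hr, h1⟩ := hE R
  have h2 : ((r : ℝ) - 1) * x + (n : ℝ) ^ 2 * x' ≤
      (1 + ε) * (((r : ℝ) - 1) * y + (n : ℝ) ^ 2 * y') + E * n := by
    have h3 := mul_le_mul_of_nonneg_right h1 hn'.le
    rw [div_mul_cancel₀ _ hn'.ne', add_mul, mul_assoc, div_mul_cancel₀ _ hn'.ne'] at h3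
    exact h3
  have hr' : (R : ℝ) < r := by exact_mod_cast hr
  have hr1 : (0 : ℝ) ≤ (r : ℝ) - 1 := by
    have : (1 : ℝ) ≤ r := by
      have h4 : 1 ≤ r := by omega
      exact_mod_cast h4
    linarith
  have h4 : ((r : ℝ) - 1) * (1 / 2) ≤ ((r : ℝ) - 1) * (x - (1 + ε) * y) := by
    refine mul_le_mul_of_nonneg_left ?_ hr1
    nlinarith
  have h5 : 0 ≤ (n : ℝ) ^ 2 * x' := by positivity
  nlinarith

/-- one degree class decides: inequalities -/
theorem core (G G' : Type) [Group G] [Finite G] [Group G'] [Finite G'] {a : ℕ} (ha : ¬ p ∣ a)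
    (h : ∀ ε : ℝ, 0 < ε → ∃ E : ℝ, ∀ (n : ℕ) [NeZero n], ¬ p ∣ n → ∀ (r : ℕ) [Fact r.Prime],
      r ≠ p → ∀ c : Multiplicative (ZMod n) →* (ZMod r)ˣ,
      (NC p (WD c G) ((a : ZMod p) ^ 2) : ℝ) ≤ (1 + ε) * NC p (WD c G') ((a : ZMod p) ^ 2) + E)
    (κ : ZMod p) : NC p G κ ≤ NC p G' κ := by
  have := Fintype.ofFinite G
  have := Fintype.ofFinite G'
  by_cases h0 : NC p G κ = 0
  · rw [h0]
    exact Nat.zero_le _
  obtain ⟨⟨χ, hχ, hk⟩⟩ := (Nat.card_ne_zero.mp h0).1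
  obtain ⟨m, hm, hpm⟩ := hχ.2
  rw [cl_eq hm] at hk
  subst hk
  have ha' : (a : ZMod p) ≠ 0 := by
    rw [Ne, ZMod.natCast_eq_zero_iff]
    exact ha
  have hm' : (m : ZMod p) ≠ 0 := by
    rw [Ne, ZMod.natCast_eq_zero_iff]
    exact hpm
  obtain ⟨n, hnd⟩ : ∃ n : ℕ, n = ((a : ZMod p) * (m : ZMod p)⁻¹).val := ⟨_, rfl⟩
  have hnv : (n : ZMod p) = (a : ZMod p) * (m : ZMod p)⁻¹ := by
    rw [hnd, ZMod.natCast_zmod_val]
  have hn0' : (n : ZMod p) ≠ 0 := by
    rw [hnv]
    exact mul_ne_zero ha' (inv_ne_zero hm')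
  have hpn : ¬ p ∣ n := by
    rw [← ZMod.natCast_eq_zero_iff]
    exact hn0'
  have hn0 : 0 < n := Nat.pos_of_ne_zero fun h => hpn (h ▸ dvd_zero p)
  have : NeZero n := ⟨hn0.ne'⟩
  have hcls : ((n : ZMod p) ^ 2)⁻¹ * (a : ZMod p) ^ 2 = (m : ZMod p) ^ 2 := by
    rw [hnv]
    field_simp
  have hPc : Nat.card (Multiplicative (ZMod n)) = n := by
    rw [Nat.card_congr Multiplicative.toAdd, Nat.card_zmod]
  have hP : ¬ p ∣ Nat.card (Multiplicative (ZMod n)) := by rw [hPc]; exact hpn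
  refine le_of_asym (x' := NC p G ((a : ZMod p) ^ 2)) (y' := NC p G' ((a : ZMod p) ^ 2)) hn0
    fun ε hε => ?_
  obtain ⟨E, hE⟩ := h ε hε
  refine ⟨E, fun R => ?_⟩
  obtain ⟨r, hr, c, hR, hc⟩ := exists_c (n := n) (max R p)
  have hrp : r ≠ p := (lt_of_le_of_lt (le_max_right _ _) hR).ne'
  refine ⟨r, lt_of_le_of_lt (le_max_left _ _) hR, ?_⟩
  have h1 := hE n hpn r hrp c
  have key : ∀ (K : Type) [Group K] [Fintype K],
      (NC p (WD c K) ((a : ZMod p) ^ 2) : ℝ) = (((r : ℝ) - 1) * NC p K ((m : ZMod p) ^ 2) +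
        (n : ℝ) ^ 2 * NC p K ((a : ZMod p) ^ 2)) / n := by
    intro K _ _
    have h2 := cnt_W (p := p) (G := K) hc hP ((a : ZMod p) ^ 2)
    rw [hPc, hcls] at h2
    have h3 : (n : ℝ) * (NC p (WD c K) ((a : ZMod p) ^ 2) : ℝ) =
        ((r : ℝ) - 1) * NC p K ((m : ZMod p) ^ 2) + (n : ℝ) ^ 2 * NC p K ((a : ZMod p) ^ 2) := by
      exact_mod_cast h2
    rw [eq_div_iff (by exact_mod_cast hn0.ne'), mul_comm]
    exact h3
  rw [key G, key G'] at h1
  exact h1

/-- the bijection from equal numbers -/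
theorem deg_of_NC (S : Sylow p G) (h : ∀ k : ZMod p, NC p G k = NC p (NS S) k) : DegBij S := by
  have := Fintype.ofFinite G
  have i1 : Finite (XP p G) := finite_of_irr fun θ hθ => hθ.1
  have i2 : Finite (XP p (NS S)) := finite_of_irr fun θ hθ => hθ.1
  obtain ⟨F, -, -, h3⟩ := iso_two (I := PUnit) (X := XP p G) (Y := XP p (NS S)) (Λ := ZMod p) 1 1
    (fun i j => rfl) (fun i => rfl) (fun θ => cl p θ.1) (fun θ => cl p θ.1) (fun i x => rfl)
    (fun i x => rfl) (fun x => rfl) (fun x => rfl) (by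
      intro L i k l
      have e1 : NC p G l = Nat.card {x : XP p G // ((∀ j ∈ L, x = x) ∧ True) ∧ cl p x.1 = l} :=
        Nat.card_congr
          { toFun := fun χ => ⟨⟨χ.1, χ.2.1⟩, ⟨fun _ _ => rfl, trivial⟩, χ.2.2⟩
            invFun := fun χ => ⟨χ.1.1, χ.1.2, χ.2.2⟩
            left_inv := fun _ => rfl
            right_inv := fun _ => rfl }
      have e2 : NC p (NS S) l =
          Nat.card {x : XP p (NS S) // ((∀ j ∈ L, x = x) ∧ True) ∧ cl p x.1 = l} :=
        Nat.card_congr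
          { toFun := fun χ => ⟨⟨χ.1, χ.2.1⟩, ⟨fun _ _ => rfl, trivial⟩, χ.2.2⟩
            invFun := fun χ => ⟨χ.1.1, χ.1.2, χ.2.2⟩
            left_inv := fun _ => rfl
            right_inv := fun _ => rfl }
      have h4 := h l
      rw [e1, e2] at h4
      refine Eq.trans (Nat.card_congr (Equiv.subtypeEquivRight fun x => ?_))
        (h4.trans (Nat.card_congr (Equiv.subtypeEquivRight fun x => ?_)))
      · refine and_congr_left fun _ => and_congr Iff.rfl (iff_true_intro ?_)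
        change ((1 : Equiv.Perm (XP p G)) ^ k) x = x
        rw [one_pow]
        rfl
      · refine and_congr_left fun _ => and_congr Iff.rfl (iff_true_intro ?_).symm
        change ((1 : Equiv.Perm (XP p (NS S))) ^ k) x = x
        rw [one_pow]
        rfl)
  refine ⟨F, fun χ m n hm hn => ?_⟩
  have h4 : cl p (F χ).1 = cl p χ.1 := h3 χ
  rw [cl_eq hm.symm, cl_eq hn.symm] at h4
  exact (cong_iff m n).mpr h4.symm

theorem sum_NC (K : Type) [Group K] [Finite K] :
    ∑ k : ZMod p, NC p K k = Nat.card (XP p K) := by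
  have := Fintype.ofFinite K
  have i1 : Finite (XP p K) := finite_of_irr fun θ hθ => hθ.1
  have := Fintype.ofFinite (XP p K)
  have e1 : ∀ k : ZMod p, NC p K k =
      (Finset.univ.filter fun x : XP p K => cl p x.1 = k).card := by
    intro k
    rw [← Fintype.card_subtype, ← Nat.card_eq_fintype_card]
    exact Nat.card_congr
      { toFun := fun χ => ⟨⟨χ.1, χ.2.1⟩, χ.2.2⟩
        invFun := fun χ => ⟨χ.1.1, χ.1.2, χ.2⟩
        left_inv := fun _ => rfl
        right_inv := fun _ => rfl }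
  rw [Finset.sum_congr rfl fun k _ => e1 k, Nat.card_eq_fintype_card, ← Finset.card_univ]
  exact (Finset.card_eq_sum_card_fiberwise (fun x _ => Finset.mem_univ _)).symm

theorem NC_of_le (S : Sylow p G) (h0 : Nat.card (XP p G) = Nat.card (XP p (NS S)))
    (h : (∀ k : ZMod p, NC p G k ≤ NC p (NS S) k) ∨ ∀ k : ZMod p, NC p (NS S) k ≤ NC p G k) :
    ∀ k : ZMod p, NC p G k = NC p (NS S) k := by
  rw [← sum_NC, ← sum_NC] at h0
  rcases h with h | h
  · intro k
    exact (Finset.sum_eq_sum_iff_of_le fun k _ => h k).mp h0 k (Finset.mem_univ k)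
  · intro k
    exact ((Finset.sum_eq_sum_iff_of_le fun k _ => h k).mp h0.symm k (Finset.mem_univ k)).symm

end cyc

end Pool.Agent.V8H56.IN
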