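import Pool.Agent.V8H56.IN.Quo
import Pool.Agent.V8H56.MA.Tw

/-!
# Equivariant bijections with degrees congruent up to sign
-/

set_option autoImplicit false
set_option linter.unusedSectionVars false

open scoped BigOperators Classical

noncomputable section

namespace Pool.Agent.V8H56.IN

open Pool.Agent.Q90.WR Pool.Agent.H254R3.IN Pool.Agent.Q259.BW Pool.Agent.Q288.MB
open Pool.Agent.Helper884 Pool.Agent.N19.RB Pool.Agent.V8H56.AM Pool.Agent.V8H56.EQ
open Pool.Agent.V8H56.MA (XP_aut fC jC' jC'_cent ap lin_XP iso_two irr_conj)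
open Pool.Agent.N84.MG (XP NS stable_XP)
open Pool.Agent.V8H56.BF (resA coe_resA inv_iff normP)

open SemidirectProduct (inl inr)

section grp

variable {G P : Type} [Group G] [Group P] [Fintype G] [Fintype P] {p : ℕ} [hp : Fact p.Prime]

theorem ext_sd (φ : P →* MulAut G) [IsCyclic P] (hpP : ¬ p ∣ Nat.card P) :
    ExtC p G (G ⋊[φ] P) := by
  have e : P ≃* Multiplicative (ZMod (Nat.card P)) := mulEquivOfCyclicCardEq (by
    rw [Nat.card_congr (Multiplicative.toAdd (α := ZMod (Nat.card P))), Nat.card_zmod])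
  refine ⟨Nat.card P, e.toMonoidHom.comp SemidirectProduct.rightHom, Nat.card_pos.ne', hpP,
    e.surjective.comp SemidirectProduct.rightHom_surjective, ⟨?_⟩⟩
  have h : (e.toMonoidHom.comp (SemidirectProduct.rightHom : G ⋊[φ] P →* P)).ker =
      (SemidirectProduct.rightHom : G ⋊[φ] P →* P).ker := by
    ext x
    rw [MonoidHom.mem_ker, MonoidHom.mem_ker]
    change e (SemidirectProduct.rightHom x) = 1 ↔ _
    rw [map_eq_one_iff e e.injective]
  exact (MulEquiv.subgroupCongr (h.trans SemidirectProduct.range_inl_eq_ker_rightHom.symm)).trans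
    (MonoidHom.ofInjective SemidirectProduct.inl_injective).symm

theorem exists_T (ψ : P →* MulAut G) (hQ : ¬ p ∣ Nat.card P) (S : Sylow p G)
    (hI : Inv ψ (S : Subgroup G)) :
    ∃ T : Sylow p (G ⋊[ψ] P), Nonempty (NS T ≃* (NS S ⋊[resA ψ hI] P)) := by
  have h1 : IsPGroup p (DW ψ (S : Subgroup G)) := S.isPGroup'.map _
  have h2 : ¬ p ∣ (DW ψ (S : Subgroup G)).index := by
    rw [index_DW]
    intro h
    rcases (Nat.Prime.dvd_mul hp.out).mp h with h | h
    · exact hQ h
    · exact S.not_dvd_index h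
  exact ⟨h1.toSylow h2, ⟨normP hI⟩⟩

end grp

section deg

variable {G : Type} [Group G] {p : ℕ} [hp : Fact p.Prime]

theorem cong_iff (m n : ℕ) : ((m : ℤ) ≡ n [ZMOD p] ∨ (m : ℤ) ≡ -n [ZMOD p]) ↔
    ((m : ZMod p)) ^ 2 = (n : ZMod p) ^ 2 := by
  rw [sq_eq_sq_iff_eq_or_eq_neg, ← ZMod.intCast_eq_intCast_iff, ← ZMod.intCast_eq_intCast_iff]
  simp

theorem NC_of_deg (S : Sylow p G) (h : DegBij S) (k : ZMod p) : NC p G k = NC p (NS S) k := by
  obtain ⟨F, hF⟩ := h
  have hc : ∀ χ : XP p G, cl p (F χ).1 = cl p χ.1 := by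
    intro χ
    obtain ⟨m, hm, -⟩ := χ.2.2
    obtain ⟨n, hn, -⟩ := (F χ).2.2
    rw [cl_eq hm, cl_eq hn]
    exact ((cong_iff m n).mp (hF χ m n hm.symm hn.symm)).symm
  have e1 : NC p G k = Nat.card {χ : XP p G // cl p χ.1 = k} := Nat.card_congr
    { toFun := fun χ => ⟨⟨χ.1, χ.2.1⟩, χ.2.2⟩
      invFun := fun χ => ⟨χ.1.1, χ.1.2, χ.2⟩
      left_inv := fun _ => rfl
      right_inv := fun _ => rfl }
  have e2 : NC p (NS S) k = Nat.card {χ : XP p (NS S) // cl p χ.1 = k} := Nat.card_congr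
    { toFun := fun χ => ⟨⟨χ.1, χ.2.1⟩, χ.2.2⟩
      invFun := fun χ => ⟨χ.1.1, χ.1.2, χ.2⟩
      left_inv := fun _ => rfl
      right_inv := fun _ => rfl }
  rw [e1, e2]
  exact Nat.card_congr (F.subtypeEquiv fun χ => by rw [hc])

end deg

section aut

variable {p : ℕ} [hp : Fact p.Prime]

theorem finA (G : Type) [Group G] [Finite G] : Finite (MulAut G) :=
  Finite.of_injective (fun f : MulAut G => (f : G → G)) DFunLike.coe_injective

theorem autcnt (G : Type) [Group G] [Finite G]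
    (H : ∀ (H : Type) [Group H] [Finite H] (T : Sylow p H), ExtC p G H → DegBij T)
    (S : Sylow p G) {f : MulAut G} (hf : ¬ p ∣ orderOf f)
    (hS : ∀ s ∈ (S : Subgroup G), f s ∈ (S : Subgroup G)) (k : ZMod p) :
    Nat.card {θ // θ ∈ XP p G ∧ RD p k f θ} = NumD p (S : Subgroup G) k f := by
  have := Fintype.ofFinite G
  have := finA G
  have := Fintype.ofFinite (Subgroup.zpowers f)
  have hP : ¬ p ∣ Nat.card (Subgroup.zpowers f) := by
    rw [Nat.card_zpowers]
    exact hf
  have h1 := fix_cnt (p := p) (P := Subgroup.zpowers f) (φ := (Subgroup.zpowers f).subtype)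
    (φ' := resA (Subgroup.zpowers f).subtype (inv_z hS)) hP (by
      intro Q k
      have hQ : ¬ p ∣ Nat.card Q := fun h => hP (h.trans (Subgroup.card_subgroup_dvd_card Q))
      have hI' : Inv ((Subgroup.zpowers f).subtype.comp Q.subtype) (S : Subgroup G) :=
        fun t d hd => inv_z hS t d hd
      obtain ⟨T, ⟨eT⟩⟩ := exists_T ((Subgroup.zpowers f).subtype.comp Q.subtype) hQ S hI'
      have h2 := NC_of_deg T (H _ T (ext_sd _ hQ)) k
      rw [h2]
      exact NC_iso eT k) ⟨f, Subgroup.mem_zpowers f⟩ k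
  unfold NumD
  refine Eq.trans (Nat.card_congr (Equiv.subtypeEquivRight fun θ => and_congr_right fun _ => ?_))
    (h1.trans (Nat.card_congr (Equiv.subtypeEquivRight fun θ => and_congr_right fun _ => ?_)))
  · exact and_comm
  · constructor
    · rintro ⟨h2, h3⟩
      refine ⟨h3, fun n n' hn => ?_⟩
      have h4 : n' = resA (Subgroup.zpowers f).subtype (inv_z hS)
          ⟨f, Subgroup.mem_zpowers f⟩ n := Subtype.ext hn
      rw [h4]
      exact congrFun h2 n
    · rintro ⟨h2, h3⟩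
      exact ⟨funext fun n => h3 n _ rfl, h2⟩

theorem goodD {G : Type} [Group G] [Finite G]
    (hX : ∀ (Y : Subgroup G) [Y.Normal], Y ≤ Subgroup.center G →
      ∀ (H : Type) [Group H] [Finite H] (T : Sylow p H), ExtC p (G ⧸ Y) H → DegBij T)
    (S : Sylow p G) {f : MulAut G} (hf : ¬ p ∣ orderOf f)
    (hS : ∀ s ∈ (S : Subgroup G), f s ∈ (S : Subgroup G)) (k : ZMod p) : Good p S k f := by
  intro Y _ hY fb hfb hord
  obtain ⟨S', hS'⟩ : ∃ S' : Sylow p (G ⧸ Y),
      (S' : Subgroup (G ⧸ Y)) = (S : Subgroup G).map (QuotientGroup.mk' Y) :=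
    ⟨S.mapSurjective (QuotientGroup.mk'_surjective Y), rfl⟩
  rw [← hS']
  exact autcnt (G ⧸ Y) (hX Y hY) S' (fun hpd => hf (hpd.trans hord)) (by
    intro s hs
    rw [hS'] at hs ⊢
    obtain ⟨s₀, hs₀, rfl⟩ := hs
    exact ⟨f s₀, hS s₀ hs₀, hfb s₀⟩) k

theorem ap_pow {H : Type} [Group H] [Finite H] (f : MulAut H) (k : ℕ) (θ : XP p H) :
    ((ap f ^ k) θ).1 = fun g => θ.1 ((f ^ k) g) := by
  induction k generalizing θ with
  | zero => rfl
  | succ k ih =>
    rw [pow_succ', Equiv.Perm.mul_apply]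
    funext g
    change ((ap f ^ k) θ).1 (f g) = θ.1 ((f ^ (k + 1)) g)
    rw [ih, pow_succ, MulAut.mul_apply]

/-- the equivariant bijection -/
theorem eqdeg {G : Type} [Group G] [Finite G]
    (hX : ∀ (Y : Subgroup G) [Y.Normal], Y ≤ Subgroup.center G →
      ∀ (H : Type) [Group H] [Finite H] (T : Sylow p H), ExtC p (G ⧸ Y) H → DegBij T)
    (S : Sylow p G) {f : MulAut G} (hf : ¬ p ∣ orderOf f)
    (hS : ∀ s ∈ (S : Subgroup G), f s ∈ (S : Subgroup G)) : EqDegBij S f := by
  have := Fintype.ofFinite G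
  have i1 : Finite (XP p G) := finite_of_irr fun θ hθ => hθ.1
  have i2 : Finite (XP p (NS S)) := finite_of_irr fun θ hθ => hθ.1
  have i3 : Finite (XP p (Subgroup.center G)) := finite_of_irr fun θ hθ => hθ.1
  obtain ⟨fN, hfN⟩ : ∃ fN : MulAut (NS S), ∀ n : NS S, ((fN n : NS S) : G) = f n :=
    ⟨resA (Subgroup.zpowers f).subtype (inv_z hS) ⟨f, Subgroup.mem_zpowers f⟩,
      fun n => coe_resA _ _ _ n⟩
  obtain ⟨fZ, hfZ⟩ : ∃ fZ : MulAut (Subgroup.center G),
      ∀ z, ((fZ z : Subgroup.center G) : G) = f z :=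
    ⟨MulEquiv.ofBijective (fC f) (Finite.injective_iff_bijective.mp (by
      intro x y hxy
      exact Subtype.ext (f.injective (congrArg Subtype.val hxy)))), fun z => rfl⟩
  have hfNk : ∀ (k : ℕ) (n : NS S), (((fN ^ k) n : NS S) : G) = (f ^ k) n := by
    intro k
    induction k with
    | zero => exact fun n => rfl
    | succ k ih =>
      intro n
      rw [pow_succ, pow_succ, MulAut.mul_apply, MulAut.mul_apply, ih, hfN]
  let A : PUnit →* Equiv.Perm (XP p G) × Equiv.Perm (XP p (NS S)) ×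
      Equiv.Perm (ZMod p × XP p (Subgroup.center G)) := 1
  let g : Equiv.Perm (XP p G) × Equiv.Perm (XP p (NS S)) ×
      Equiv.Perm (ZMod p × XP p (Subgroup.center G)) :=
    (ap f, ap fN, Equiv.prodCongr (Equiv.refl _) (ap fZ))
  let c : XP p G → ZMod p × XP p (Subgroup.center G) := fun θ =>
    (cl p θ.1, ⟨_, lin_XP (vh (Subgroup.center G).subtype (fun z => z.2) θ.2.1)⟩)
  let c' : XP p (NS S) → ZMod p × XP p (Subgroup.center G) := fun θ =>
    (cl p θ.1, ⟨_, lin_XP (vh (jC' (S : Subgroup G)) (jC'_cent (S : Subgroup G)) θ.2.1)⟩)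
  obtain ⟨F, -, h2, h3⟩ := iso_two A g (fun i j => rfl) (fun i => by rw [MonoidHom.one_apply,
      one_mul, mul_one]) c c' (fun i x => rfl) (fun i x => rfl)
    (by
      intro x
      refine Prod.ext (cl_congr ?_) (Subtype.ext (funext fun z => ?_))
      · change x.1 (f 1) = x.1 1
        rw [map_one]
      · change x.1 (f z) / x.1 (f 1) = x.1 ((fZ z : Subgroup.center G) : G) / x.1 1
        rw [hfZ, map_one])
    (by
      intro x
      refine Prod.ext (cl_congr ?_) (Subtype.ext (funext fun z => ?_))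
      · change x.1 (fN 1) = x.1 1
        rw [map_one]
      · change x.1 (fN (jC' (S : Subgroup G) z)) / x.1 (fN 1) =
          x.1 (jC' (S : Subgroup G) (fZ z)) / x.1 1
        have h4 : fN (jC' (S : Subgroup G) z) = jC' (S : Subgroup G) (fZ z) :=
          Subtype.ext ((hfN _).trans (hfZ z).symm)
        rw [h4, map_one])
    (by
      intro L i k l
      have hgood := goodD hX S (f := f ^ k) (fun hd => hf (hd.trans (orderOf_pow_dvd _)))
        (pow_mem_of hS _) l.1
      have e := cnt_Z'' S (pow_mem_of hS _) hgood l.2.1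
      have key : ∀ x : XP p G, ((g.1 ^ k) x = x) ↔ (fun g => x.1 ((f ^ k) g)) = x.1 := by
        intro x
        have h4 := ap_pow f k x
        constructor
        · intro h
          exact h4.symm.trans (congrArg Subtype.val h)
        · intro h
          exact Subtype.ext (h4.trans h)
      have keyN : ∀ x : XP p (NS S), ((g.2.1 ^ k) x = x) ↔
          ∀ n n' : NS S, (n' : G) = (f ^ k) n → x.1 n' = x.1 n := by
        intro x
        have h4 := ap_pow fN k x
        constructor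
        · intro h n n' hn
          have h5 : n' = (fN ^ k) n := Subtype.ext (hn.trans (hfNk _ n).symm)
          rw [h5]
          exact congrFun (h4.symm.trans (congrArg Subtype.val h)) n
        · intro h
          exact Subtype.ext (h4.trans (funext fun n => h n _ (hfNk _ n)))
      refine (Nat.card_congr ?_).trans (e.trans (Nat.card_congr ?_))
      · exact
          { toFun := fun x => ⟨⟨x.1.1, x.1.2, congrArg Prod.fst x.2.2, (key x.1).mp x.2.1.2⟩,
              congrArg (fun y : ZMod p × XP p (Subgroup.center G) => y.2.1) x.2.2⟩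
            invFun := fun a => ⟨⟨a.1.1, a.1.2.1⟩, ⟨fun _ _ => rfl,
              (key ⟨a.1.1, a.1.2.1⟩).mpr a.1.2.2.2⟩, Prod.ext a.1.2.2.1 (Subtype.ext a.2)⟩
            left_inv := fun _ => rfl
            right_inv := fun _ => rfl }
      · exact
          { toFun := fun a => ⟨⟨a.1.1, a.1.2.1⟩, ⟨fun _ _ => rfl,
              (keyN ⟨a.1.1, a.1.2.1⟩).mpr a.1.2.2.2⟩, Prod.ext a.1.2.2.1 (Subtype.ext a.2)⟩
            invFun := fun x => ⟨⟨x.1.1, x.1.2, congrArg Prod.fst x.2.2, (keyN x.1).mp x.2.1.2⟩,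
              congrArg (fun y : ZMod p × XP p (Subgroup.center G) => y.2.1) x.2.2⟩
            left_inv := fun _ => rfl
            right_inv := fun _ => rfl })
  refine ⟨F, ?_, ?_, ?_⟩
  · intro χ m n hm hn
    have h4 : cl p (F χ).1 = cl p χ.1 := congrArg Prod.fst (h3 χ)
    rw [cl_eq hm.symm, cl_eq hn.symm] at h4
    exact (cong_iff m n).mpr h4.symm
  · intro θ θ' h n n' hn
    have h4 : θ' = ap f θ := Subtype.ext (funext h)
    have h5 := h2 θ
    change F (ap f θ) = ap fN (F θ) at h5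
    have h6 : n' = fN n := Subtype.ext (hn.trans (hfN n).symm)
    rw [h4, h5, h6]
    rfl
  · intro θ z hz
    have h4 := congrFun (congrArg (fun y : ZMod p × XP p (Subgroup.center G) => y.2.1) (h3 θ))
      ⟨z, hz⟩
    exact h4

/-- automorphisms with an inner power of order prime to `p` -/
theorem eqdeg_inn {G : Type} [Group G] [Finite G]
    (hX : ∀ (Y : Subgroup G) [Y.Normal], Y ≤ Subgroup.center G →
      ∀ (H : Type) [Group H] [Finite H] (T : Sylow p H), ExtC p (G ⧸ Y) H → DegBij T)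
    (S : Sylow p G) {f : MulAut G}
    (hf : ∃ (k : ℕ) (x : G), ¬ p ∣ k ∧ f ^ k = MulAut.conj x)
    (hS : ∀ s ∈ (S : Subgroup G), f s ∈ (S : Subgroup G)) : EqDegBij S f := by
  obtain ⟨k, x, hk, hx⟩ := hf
  have : Finite (MulAut G) := finA G
  obtain ⟨a, m, hm, hc⟩ :=
    Nat.exists_eq_pow_mul_and_not_dvd (orderOf_pos f).ne' p hp.out.ne_one
  have hcop : (p ^ a).Coprime m :=
    Nat.Coprime.pow_left _ ((Nat.Prime.coprime_iff_not_dvd hp.out).mpr hm)
  obtain ⟨u, u1, u2⟩ := Nat.chineseRemainder hcop 1 0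
  obtain ⟨w, w1, w2⟩ := Nat.chineseRemainder hcop 0 1
  have huw : f ^ (u + w) = f := by
    have h1 : u + w ≡ 1 [MOD p ^ a * m] := by
      rw [← Nat.modEq_and_modEq_iff_modEq_mul hcop]
      exact ⟨u1.add w1, u2.add w2⟩
    rw [← hc] at h1
    have h2 := (pow_eq_pow_iff_modEq (x := f)).mpr h1
    rw [h2, pow_one]
  -- the `p`-part is inner
  have hkp : (p ^ a).Coprime k :=
    Nat.Coprime.pow_left _ ((Nat.Prime.coprime_iff_not_dvd hp.out).mpr hk)
  obtain ⟨v, v1, v2⟩ := Nat.chineseRemainder hkp 1 0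
  obtain ⟨t, ht⟩ := (Nat.modEq_zero_iff_dvd).mp v2
  have hfu : f ^ u = f ^ (k * (t * u)) := by
    rw [pow_eq_pow_iff_modEq, hc, ← Nat.modEq_and_modEq_iff_modEq_mul hcop]
    constructor
    · have h1 : 1 * u ≡ v * u [MOD p ^ a] := (v1.mul_right u).symm
      rw [one_mul, ht] at h1
      rw [← mul_assoc]
      exact h1
    · have h1 : k * (t * u) ≡ k * (t * 0) [MOD m] := (u2.mul_left t).mul_left k
      rw [mul_zero, mul_zero] at h1
      exact u2.trans h1.symm
  obtain ⟨y, hy⟩ : ∃ y : G, y = x ^ (t * u) := ⟨_, rfl⟩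
  have hfy : f ^ u = MulAut.conj y := by
    rw [hfu, pow_mul, hx, hy, map_pow]
  have hfw : ∀ g, f g = y * (f ^ w) g * y⁻¹ := by
    intro g
    conv_lhs => rw [← huw]
    rw [pow_add, MulAut.mul_apply, hfy, MulAut.conj_apply]
  have hyN : y ∈ Subgroup.normalizer ((S : Subgroup G) : Set G) := by
    rw [Subgroup.mem_normalizer_iff]
    have h1 : ∀ s ∈ (S : Subgroup G), y * s * y⁻¹ ∈ (S : Subgroup G) := by
      intro s hs
      have h2 := pow_mem_of hS u s hs
      rw [hfy, MulAut.conj_apply] at h2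
      exact h2
    intro h
    refine ⟨h1 h, fun hh => ?_⟩
    have h2 : (S : Subgroup G).map (MulAut.conj y : G →* G) = S := by
      apply Subgroup.eq_of_le_of_card_ge
      · rintro _ ⟨s, hs, rfl⟩
        exact h1 s hs
      · rw [Nat.card_congr ((S : Subgroup G).equivMapOfInjective (MulAut.conj y : G →* G)
          (MulAut.conj y).injective).toEquiv]
    rw [← h2] at hh
    obtain ⟨s, hs, hs'⟩ := hh
    have h3 : s = h := (MulAut.conj y).injective hs'
    rw [← h3]
    exact hs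
  have hfm : ¬ p ∣ orderOf (f ^ w) := by
    intro hd
    apply hm
    obtain ⟨w', hw'⟩ := (Nat.modEq_zero_iff_dvd).mp w1
    refine hd.trans (orderOf_dvd_of_pow_eq_one ?_)
    rw [← pow_mul, hw']
    have h1 : p ^ a * w' * m = orderOf f * w' := by rw [hc]; ring
    rw [h1, pow_mul, pow_orderOf_eq_one, one_pow]
  obtain ⟨F, h1, h2, h3⟩ := eqdeg hX S hfm (pow_mem_of hS w)
  refine ⟨F, h1, ?_, h3⟩
  intro θ θ' h n n' hn
  have h4 : ∀ g, θ'.1 g = θ.1 ((f ^ w) g) := by
    intro g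
    rw [h, hfw, irr_conj θ.2.1]
  have hyn : ((⟨y, hyN⟩ : NS S)⁻¹ * n' * (⟨y, hyN⟩ : NS S)⁻¹⁻¹ : NS S) =
      (⟨y⁻¹ * (n' : G) * y, by
        have := ((⟨y, hyN⟩ : NS S)⁻¹ * n' * (⟨y, hyN⟩ : NS S)⁻¹⁻¹ : NS S).2
        simpa using this⟩ : NS S) := by
    apply Subtype.ext
    simp
  have h5 := h2 θ θ' h4 n ((⟨y, hyN⟩ : NS S)⁻¹ * n' * (⟨y, hyN⟩ : NS S)⁻¹⁻¹) (by
    rw [hyn]
    change y⁻¹ * (n' : G) * y = (f ^ w) n
    rw [hn, hfw]
    group)
  rw [h5, irr_conj (F θ).2.1]

end aut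

end Pool.Agent.V8H56.IN
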