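import Pool.Agent.V8H56.IN.Cnt
import Pool.Agent.V8H56.IN.Defs

/-!
# Numbers of characters with given degree class which are fixed by an automorphism
-/

set_option autoImplicit false
set_option linter.unusedSectionVars false

open scoped BigOperators Classical

noncomputable section

namespace Pool.Agent.V8H56.IN

open Pool.Agent.Q90.WR Pool.Agent.H254R3.IN Pool.Agent.Q259.BW Pool.Agent.Q288.MB
open Pool.Agent.Helper884 Pool.Agent.N19.RB Pool.Agent.V8H56.AM Pool.Agent.V8H56.EQ
open Pool.Agent.V8H56.MA (XP_aut dn_card' nq_surj nq_cent fcl_le' fC jC' jC'_cent col_count'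
  gal_move' deg_inf)
open Pool.Agent.N84.MG (XP NS stable_XP)
open Pool.Agent.V8H56.BF (resA coe_resA inv_iff normP)

/-- characters with degree class `k` which are fixed by `f` -/
def RD {G : Type} [Group G] (p : ℕ) (k : ZMod p) (f : MulAut G) (θ : G → ℂ) : Prop :=
  cl p θ = k ∧ (fun g => θ (f g)) = θ

/-- characters of a normaliser with degree class `k` which are fixed by `f` -/
def RDN {G : Type} [Group G] (p : ℕ) (D : Subgroup G) (k : ZMod p) (f : MulAut G)
    (θ : Subgroup.normalizer (D : Set G) → ℂ) : Prop :=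
  cl p θ = k ∧ ∀ n n' : Subgroup.normalizer (D : Set G), (n' : G) = f n → θ n' = θ n

/-- number of characters of the normaliser of a subgroup -/
def NumD {G : Type} [Group G] (p : ℕ) (D : Subgroup G) (k : ZMod p) (f : MulAut G) : ℕ :=
  Nat.card {θ // θ ∈ XP p (Subgroup.normalizer (D : Set G)) ∧ RDN p D k f θ}

section quo

variable {G Q : Type} [Group G] [Group Q] [Fintype G] [Fintype Q] {p : ℕ} [hp : Fact p.Prime]
  {π : G →* Q}

theorem cnt_ker'' (hπ : Function.Surjective π) (hc : π.ker ≤ Subgroup.center G) (S : Sylow p G)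
    {k : ZMod p} {f : MulAut G} {fb : MulAut Q}
    (hS : ∀ s ∈ (S : Subgroup G), f s ∈ (S : Subgroup G))
    (hf : ∀ g, π (f g) = fb (π g))
    (h : Nat.card {θ // θ ∈ XP p Q ∧ RD p k fb θ} = NumD p ((S : Subgroup G).map π) k fb) :
    Nat.card {θ // θ ∈ XP p G ∧ RD p k f θ ∧ ∀ z ∈ π.ker, θ z = θ 1} =
      Nat.card {θ // θ ∈ XP p (NS S) ∧ RDN p (S : Subgroup G) k f θ ∧
        ∀ z : NS S, (z : G) ∈ π.ker → θ z = θ 1} := by
  have e1 := dn_card' (p := p) hπ hc (RD p k f) (RD p k fb) (by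
    intro θ
    unfold RD
    have h0 : cl p θ = cl p fun x => θ (π x) := cl_congr (by rw [map_one])
    rw [h0]
    refine and_congr_right fun _ => ?_
    constructor
    · intro h1
      funext g
      change θ (π (f g)) = θ (π g)
      rw [hf]
      exact congrFun h1 (π g)
    · intro h1
      funext k
      obtain ⟨g, rfl⟩ := hπ k
      rw [← hf]
      exact congrFun h1 g)
  have hN := nq_surj hπ hc S
  have e2 := dn_card' (p := p) hN (nq_cent hc _) (RDN p (S : Subgroup G) k f)
    (RDN p ((S : Subgroup G).map π) k fb) (by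
    intro θ
    unfold RDN
    have h0 : cl p θ = cl p fun x => θ (nq π (S : Subgroup G) x) := cl_congr (by rw [map_one])
    rw [h0]
    refine and_congr_right fun _ => ?_
    constructor
    · intro h1 n n' hn
      apply h1
      rw [coe_nq, coe_nq, hn, hf]
    · intro h1 m m' hm
      obtain ⟨n, rfl⟩ := hN m
      have h2 := coe_resA (Subgroup.zpowers f).subtype (inv_z hS)
        ⟨f, Subgroup.mem_zpowers f⟩ n
      have h3 := h1 n (resA (Subgroup.zpowers f).subtype (inv_z hS)
        ⟨f, Subgroup.mem_zpowers f⟩ n) h2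
      have h4 : m' = nq π (S : Subgroup G) (resA (Subgroup.zpowers f).subtype (inv_z hS)
        ⟨f, Subgroup.mem_zpowers f⟩ n) := by
        apply Subtype.ext
        rw [hm, coe_nq, coe_nq, h2]
        exact (hf n).symm
      rw [h4]
      exact h3)
  unfold NumD at h
  refine e1.symm.trans (h.trans (e2.trans ?_))
  refine Nat.card_congr (Equiv.subtypeEquivRight fun θ => and_congr_right fun _ =>
    and_congr_right fun _ => ?_)
  constructor
  · intro h1 z hz
    exact h1 z (mem_ker_nq.mpr hz)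
  · intro h1 z hz
    exact h1 z (mem_ker_nq.mp hz)

end quo

section main

variable {G : Type} [Group G] [Finite G] {p : ℕ} [hp : Fact p.Prime]

/-- the numbers agree for all quotients by central subgroups -/
def Good (p : ℕ) [Fact p.Prime] {G : Type} [Group G] (S : Sylow p G) (k : ZMod p)
    (f : MulAut G) : Prop :=
  ∀ (Y : Subgroup G) [Y.Normal], Y ≤ Subgroup.center G → ∀ fb : MulAut (G ⧸ Y),
    (∀ g, QuotientGroup.mk' Y (f g) = fb (QuotientGroup.mk' Y g)) → orderOf fb ∣ orderOf f →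
    Nat.card {θ // θ ∈ XP p (G ⧸ Y) ∧ RD p k fb θ} =
      NumD p ((S : Subgroup G).map (QuotientGroup.mk' Y)) k fb

theorem cnt_Y'' (S : Sylow p G) {k : ZMod p} {f : MulAut G}
    (hS : ∀ s ∈ (S : Subgroup G), f s ∈ (S : Subgroup G)) (hg : Good p S k f)
    (Y : Subgroup (Subgroup.center G)) :
    Nat.card {a : {θ // θ ∈ XP p G ∧ RD p k f θ} // ∀ y ∈ Y, a.1 (y : G) / a.1 1 = 1} =
      Nat.card {a : {θ // θ ∈ XP p (NS S) ∧ RDN p (S : Subgroup G) k f θ} //
        ∀ y ∈ Y, a.1 (jC' (S : Subgroup G) y) / a.1 1 = 1} := by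
  have := Fintype.ofFinite G
  set Yf := fcl (fC f) Y with hYf
  have hYg : Yf.map (Subgroup.center G).subtype ≤ Subgroup.center G := Subgroup.map_subtype_le Yf
  have hnorm : (Yf.map (Subgroup.center G).subtype).Normal := by
    constructor
    intro n hn g
    have h1 := Subgroup.mem_center_iff.mp (hYg hn) g
    rw [h1, mul_assoc, mul_inv_cancel, mul_one]
    exact hn
  have := Fintype.ofFinite (G ⧸ Yf.map (Subgroup.center G).subtype)
  obtain ⟨fb, hfb, hfb'⟩ := quo_aut (Yf.map (Subgroup.center G).subtype) f (by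
    rintro _ ⟨y, hy, rfl⟩
    exact ⟨fC f y, f_fcl _ _ y hy, rfl⟩)
  have e := cnt_ker'' (p := p) (π := QuotientGroup.mk' (Yf.map (Subgroup.center G).subtype))
    (QuotientGroup.mk'_surjective _) (by rw [QuotientGroup.ker_mk']; exact hYg) S hS hfb
    (hg _ hYg fb hfb hfb')
  rw [QuotientGroup.ker_mk'] at e
  -- the global side
  have g1 : ∀ a : {θ // θ ∈ XP p G ∧ RD p k f θ}, (∀ y ∈ Y, a.1 (y : G) / a.1 1 = 1) ↔
      ∀ z ∈ Yf.map (Subgroup.center G).subtype, a.1 z = a.1 1 := by
    intro a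
    have hi := a.2.1.1
    have h0 := hi.one_ne
    have h1 := fcl_le' (f := fC f) (Y := Y)
      (w := vh (Subgroup.center G).subtype (fun z => z.2) hi) (by
        intro z hz
        rw [MonoidHom.mem_ker, vh_apply, div_one_iff h0] at hz ⊢
        have h2 := congrFun a.2.2.2 (z : G)
        change a.1 (f z) = a.1 1
        exact h2.trans hz)
    constructor
    · intro h
      rintro _ ⟨z, hz, rfl⟩
      have h2 := h1.mp (fun y hy => h y hy) hz
      exact (div_one_iff h0).mp h2
    · intro h y hy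
      exact (div_one_iff h0).mpr (h _ ⟨y, le_fcl _ _ hy, rfl⟩)
  have g2 : ∀ a : {θ // θ ∈ XP p (NS S) ∧ RDN p (S : Subgroup G) k f θ},
      (∀ y ∈ Y, a.1 (jC' (S : Subgroup G) y) / a.1 1 = 1) ↔
      ∀ z : NS S, (z : G) ∈ Yf.map (Subgroup.center G).subtype → a.1 z = a.1 1 := by
    intro a
    have hi := a.2.1.1
    have h0 := hi.one_ne
    have h1 := fcl_le' (f := fC f) (Y := Y)
      (w := vh (jC' (S : Subgroup G)) (jC'_cent (S : Subgroup G)) hi) (by
        intro z hz
        rw [MonoidHom.mem_ker, vh_apply, div_one_iff h0] at hz ⊢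
        have h2 := a.2.2.2 (jC' (S : Subgroup G) z) (jC' (S : Subgroup G) (fC f z)) rfl
        rw [h2, hz])
    constructor
    · intro h z hz
      obtain ⟨y, hy, he⟩ := hz
      have h2 := h1.mp (fun y hy => h y hy) hy
      have h3 : z = jC' (S : Subgroup G) y := Subtype.ext he.symm
      rw [h3]
      exact (div_one_iff h0).mp h2
    · intro h y hy
      exact (div_one_iff h0).mpr (h _ ⟨y, le_fcl _ _ hy, rfl⟩)
  have e1 : Nat.card {a : {θ // θ ∈ XP p G ∧ RD p k f θ} //
      ∀ y ∈ Y, a.1 (y : G) / a.1 1 = 1} =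
      Nat.card {θ // θ ∈ XP p G ∧ RD p k f θ ∧
        ∀ z ∈ Yf.map (Subgroup.center G).subtype, θ z = θ 1} :=
    Nat.card_congr
      { toFun := fun a => ⟨a.1.1, a.1.2.1, a.1.2.2, (g1 a.1).mp a.2⟩
        invFun := fun θ => ⟨⟨θ.1, θ.2.1, θ.2.2.1⟩, (g1 ⟨θ.1, θ.2.1, θ.2.2.1⟩).mpr θ.2.2.2⟩
        left_inv := fun _ => rfl
        right_inv := fun _ => rfl }
  have e2 : Nat.card {a : {θ // θ ∈ XP p (NS S) ∧ RDN p (S : Subgroup G) k f θ} //
      ∀ y ∈ Y, a.1 (jC' (S : Subgroup G) y) / a.1 1 = 1} =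
      Nat.card {θ // θ ∈ XP p (NS S) ∧ RDN p (S : Subgroup G) k f θ ∧
        ∀ z : NS S, (z : G) ∈ Yf.map (Subgroup.center G).subtype → θ z = θ 1} :=
    Nat.card_congr
      { toFun := fun a => ⟨a.1.1, a.1.2.1, a.1.2.2, (g2 a.1).mp a.2⟩
        invFun := fun θ => ⟨⟨θ.1, θ.2.1, θ.2.2.1⟩, (g2 ⟨θ.1, θ.2.1, θ.2.2.1⟩).mpr θ.2.2.2⟩
        left_inv := fun _ => rfl
        right_inv := fun _ => rfl }
  rw [e1, e2]
  exact e

theorem cl_gal {H : Type} [Group H] [Finite H] (κ : ℂ ≃+* ℂ) {θ : H → ℂ} (hθ : IsIrr θ) :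
    cl p (fun g => κ (θ g)) = cl p θ := by
  have := Fintype.ofFinite H
  obtain ⟨d, -, hd⟩ := hθ.deg
  apply cl_congr
  change κ (θ 1) = θ 1
  rw [← hd, map_natCast]

/-- **The numbers of fixed characters above a given character of the centre.** -/
theorem cnt_Z'' (S : Sylow p G) {k : ZMod p} {f : MulAut G}
    (hS : ∀ s ∈ (S : Subgroup G), f s ∈ (S : Subgroup G)) (hg : Good p S k f)
    (l : Subgroup.center G → ℂ) :
    Nat.card {a : {θ // θ ∈ XP p G ∧ RD p k f θ} //
        (fun z : Subgroup.center G => a.1 (z : G) / a.1 1) = l} =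
      Nat.card {a : {θ // θ ∈ XP p (NS S) ∧ RDN p (S : Subgroup G) k f θ} //
        (fun z : Subgroup.center G => a.1 (jC' (S : Subgroup G) z) / a.1 1) = l} := by
  have := Fintype.ofFinite G
  have i1 : Finite (XP p G) := finite_of_irr fun θ hθ => hθ.1
  have i2 : Finite (XP p (NS S)) := finite_of_irr fun θ hθ => hθ.1
  have i3 : Finite {θ // θ ∈ XP p G ∧ RD p k f θ} :=
    Finite.of_injective (fun θ => (⟨θ.1, θ.2.1⟩ : XP p G)) fun θ θ' h =>
      Subtype.ext (congrArg (fun x : XP p G => x.1) h)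
  have i4 : Finite {θ // θ ∈ XP p (NS S) ∧ RDN p (S : Subgroup G) k f θ} :=
    Finite.of_injective (fun θ => (⟨θ.1, θ.2.1⟩ : XP p (NS S))) fun θ θ' h =>
      Subtype.ext (congrArg (fun x : XP p (NS S) => x.1) h)
  let v : {θ // θ ∈ XP p G ∧ RD p k f θ} → (Subgroup.center G →* ℂ) := fun a =>
    vh (Subgroup.center G).subtype (fun z => z.2) a.2.1.1
  let v' : {θ // θ ∈ XP p (NS S) ∧ RDN p (S : Subgroup G) k f θ} → (Subgroup.center G →* ℂ) :=
    fun a => vh (jC' (S : Subgroup G)) (jC'_cent (S : Subgroup G)) a.2.1.1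
  by_cases hl : ∃ l' : Subgroup.center G →* ℂ, (l' : Subgroup.center G → ℂ) = l
  · obtain ⟨l', rfl⟩ := hl
    have h1 := col_count' v v' (fun Y => cnt_Y'' S hS hg Y)
      (fun i => by
        obtain ⟨e, he, he'⟩ := gal_move' (p := p) (Subgroup.center G).subtype (RD p k f)
          (fun κ θ hθ h => ⟨(cl_gal κ hθ).trans h.1, funext fun g =>
            congrArg κ (congrFun h.2 g)⟩) i
        exact ⟨e, he, he'⟩)
      (fun i => by
        obtain ⟨e, he, he'⟩ := gal_move' (p := p) (jC' (S : Subgroup G))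
          (RDN p (S : Subgroup G) k f) (fun κ θ hθ h =>
            ⟨(cl_gal κ hθ).trans h.1, fun n n' hn => congrArg κ (h.2 n n' hn)⟩) i
        exact ⟨e, he, he'⟩) l'
    have e1 : Nat.card {a // v a = l'} = Nat.card {a : {θ // θ ∈ XP p G ∧ RD p k f θ} //
        (fun z : Subgroup.center G => a.1 (z : G) / a.1 1) = l'} :=
      Nat.card_congr (Equiv.subtypeEquivRight fun a =>
        ⟨fun h => congrArg (fun w : Subgroup.center G →* ℂ => (w : Subgroup.center G → ℂ)) h,
          fun h => DFunLike.coe_injective h⟩)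
    have e2 : Nat.card {a // v' a = l'} =
        Nat.card {a : {θ // θ ∈ XP p (NS S) ∧ RDN p (S : Subgroup G) k f θ} //
        (fun z : Subgroup.center G => a.1 (jC' (S : Subgroup G) z) / a.1 1) = l'} :=
      Nat.card_congr (Equiv.subtypeEquivRight fun a =>
        ⟨fun h => congrArg (fun w : Subgroup.center G →* ℂ => (w : Subgroup.center G → ℂ)) h,
          fun h => DFunLike.coe_injective h⟩)
    rw [← e1, ← e2]
    exact h1
  · have e1 : IsEmpty {a : {θ // θ ∈ XP p G ∧ RD p k f θ} //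
        (fun z : Subgroup.center G => a.1 (z : G) / a.1 1) = l} := ⟨fun a => hl ⟨v a.1, a.2⟩⟩
    have e2 : IsEmpty {a : {θ // θ ∈ XP p (NS S) ∧ RDN p (S : Subgroup G) k f θ} //
        (fun z : Subgroup.center G => a.1 (jC' (S : Subgroup G) z) / a.1 1) = l} :=
      ⟨fun a => hl ⟨v' a.1, a.2⟩⟩
    rw [Nat.card_of_isEmpty, Nat.card_of_isEmpty]

end main

end Pool.Agent.V8H56.IN
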